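import Pool.Agent.Lib.MP_c29043_lc.LfpGame
import Pool.Agent.Lib.PolyTime.Arith

/-!
# The algorithm: halving of invariant boxes, with a subroutine for least fixed points
-/

set_option autoImplicit false

open N68a2faeb N487b59b3 Pool.Agent.Lib.PolyTime

namespace Pool.Agent.Lib.MP_c29043_lc

variable {α β γ : Type} [N487b59b3 α] [N487b59b3 β] [N487b59b3 γ]

theorem le_sz_fst (a : α) (b : β) : sz a ≤ sz (a, b) := by
  rw [sz_pair]; omega

theorem le_sz_snd (a : α) (b : β) : sz b ≤ sz (a, b) := by
  rw [sz_pair]; omega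

/-! ### Maximum of a list -/

theorem lmax_eq_foldl (l : List ℕ) : lmax l = l.foldl max 0 := by
  have h : ∀ (l : List ℕ) (s : ℕ), l.foldl max s = max s (lmax l) := by
    intro l
    induction l with
    | nil => intro s; simp [lmax]
    | cons b l ih =>
      intro s
      rw [List.foldl_cons, ih]
      have e : lmax (b :: l) = max b (lmax l) := rfl
      rw [e, max_assoc]
  rw [h]
  simp

@[fun_prop]
theorem pt_lmax {l : α → List ℕ} (hl : IsPolyTime l) : IsPolyTime (fun a => lmax (l a)) := by
  obtain ⟨q, hq⟩ := exists_size hl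
  have h : IsPolyTime (fun a => (l a).foldl (fun s b => max s b) 0) := by
    refine pt_foldl (g := fun (_ : α) (s b : ℕ) => max s b) (by fun_prop) hl (pt_const 0) q ?_
    intro a k
    have e : ((l a).take k).foldl (fun s b => max s b) 0 = lmax ((l a).take k) :=
      (lmax_eq_foldl _).symm
    rw [e]
    have h1 := sz_take_le (l a) k
    rcases lmax_mem ((l a).take k) with h2 | h2
    · rw [h2]
      have h3 : sz (0 : ℕ) = 0 := by rw [sz_nat, bitsOf_zero]; rfl
      omega
    · exact (sz_le_of_mem h2).trans (h1.trans (hq a))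
  exact pt_congr h (fun a => (lmax_eq_foldl _).symm)

/-! ### Lists without repetitions -/

/-- remove repetitions -/
def nub {δ : Type} [DecidableEq δ] (l : List δ) : List δ :=
  l.foldl (fun s v => if v ∈ s then s else v :: s) []

theorem nub_aux {δ : Type} [DecidableEq δ] (l s : List δ) (hs : s.Nodup) :
    (l.foldl (fun s v => if v ∈ s then s else v :: s) s).Nodup ∧
      ∀ v, v ∈ l.foldl (fun s v => if v ∈ s then s else v :: s) s ↔ v ∈ l ∨ v ∈ s := by
  induction l generalizing s with
  | nil => exact ⟨hs, fun v => by simp⟩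
  | cons b l ih =>
    rw [List.foldl_cons]
    by_cases hb : b ∈ s
    · rw [if_pos hb]
      refine ⟨(ih s hs).1, fun v => ?_⟩
      rw [(ih s hs).2 v, List.mem_cons]
      constructor
      · tauto
      · rintro ((rfl | h) | h)
        · exact Or.inr hb
        · exact Or.inl h
        · exact Or.inr h
    · rw [if_neg hb]
      have h1 : (b :: s).Nodup := List.nodup_cons.mpr ⟨hb, hs⟩
      refine ⟨(ih _ h1).1, fun v => ?_⟩
      rw [(ih _ h1).2 v, List.mem_cons, List.mem_cons]
      tauto

theorem nub_nodup {δ : Type} [DecidableEq δ] (l : List δ) : (nub l).Nodup :=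
  (nub_aux l [] List.nodup_nil).1

theorem mem_nub {δ : Type} [DecidableEq δ] {l : List δ} {v : δ} : v ∈ nub l ↔ v ∈ l := by
  rw [nub, (nub_aux l [] List.nodup_nil).2 v]
  simp

@[fun_prop]
theorem pt_nub [DecidableEq β] {l : α → List β} (hl : IsPolyTime l) :
    IsPolyTime (fun a => nub (l a)) := by
  obtain ⟨q, hq⟩ := exists_size hl
  refine pt_foldl (g := fun (_ : α) (s : List β) (v : β) => if v ∈ s then s else v :: s)
    (by fun_prop) hl (pt_const []) q ?_
  intro a k
  have key : ∀ (l s : List β), sz (l.foldl (fun s v => if v ∈ s then s else v :: s) s) ≤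
      sz l + sz s := by
    intro l
    induction l with
    | nil => intro s; simp
    | cons b l ih =>
      intro s
      rw [List.foldl_cons]
      refine (ih _).trans ?_
      rw [sz_cons b l]
      split_ifs
      · omega
      · rw [sz_cons]; omega
  refine (key _ _).trans ?_
  rw [sz_nil]
  exact (sz_take_le _ _).trans (hq a)

/-! ### Lookup -/

theorem vec_eq (l : List (ℕ × ℕ)) (v : ℕ) :
    vec l v = ((l.filter fun p => decide (p.1 = v)).map fun p => p.2).headD 0 := by
  induction l with
  | nil => rfl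
  | cons b l ih =>
    rw [List.filter_cons]
    unfold vec at ih ⊢
    rw [List.lookup_cons]
    by_cases h : b.1 = v
    · subst h
      simp
    · have h' : (v == b.1) = false := by
        rw [beq_eq_false_iff_ne]
        exact fun e => h e.symm
      rw [h']
      simp only [h, decide_false, Bool.false_eq_true, if_false]
      exact ih

@[fun_prop]
theorem pt_vec {l : α → List (ℕ × ℕ)} {v : α → ℕ} (hl : IsPolyTime l) (hv : IsPolyTime v) :
    IsPolyTime (fun a => vec (l a) (v a)) := by
  simp only [vec_eq]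
  fun_prop

/-- tabulation -/
def tab (V : List ℕ) (f : ℕ → ℕ) : List (ℕ × ℕ) := V.map fun v => (v, f v)

theorem vec_tab {V : List ℕ} {f : ℕ → ℕ} {v : ℕ} (hv : v ∈ V) : vec (tab V f) v = f v := by
  induction V with
  | nil => simp at hv
  | cons u V ih =>
    unfold vec tab at ih ⊢
    rw [List.map_cons, List.lookup_cons]
    by_cases h : v = u
    · subst h
      simp
    · have h' : (v == u) = false := by rwa [beq_eq_false_iff_ne]
      simp only [h']
      exact ih ((List.mem_cons.mp hv).resolve_left h)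

theorem vec_tab_zero {V : List ℕ} {f : ℕ → ℕ} {v : ℕ} (hv : v ∉ V) : vec (tab V f) v = 0 := by
  induction V with
  | nil => rfl
  | cons u V ih =>
    unfold vec tab at ih ⊢
    rw [List.mem_cons, not_or] at hv
    rw [List.map_cons, List.lookup_cons]
    have h' : (v == u) = false := by
      rw [beq_eq_false_iff_ne]; exact hv.1
    simp only [h']
    exact ih hv.2

theorem vec_tab_eq {V : List ℕ} {f : ℕ → ℕ} (hf : ∀ v, v ∉ V → f v = 0) : vec (tab V f) = f := by
  funext v
  by_cases hv : v ∈ V
  · exact vec_tab hv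
  · rw [vec_tab_zero hv, hf v hv]

@[fun_prop]
theorem pt_tab {V : α → List ℕ} {f : α → ℕ → ℕ} (hV : IsPolyTime V)
    (hf : IsPolyTime (fun p : α × ℕ => f p.1 p.2)) : IsPolyTime (fun a => tab (V a) (f a)) := by
  unfold tab
  fun_prop

theorem sz_tab_mono (V : List ℕ) {f g : ℕ → ℕ} (h : ∀ v, f v ≤ g v) :
    sz (tab V f) ≤ sz (tab V g) := by
  induction V with
  | nil => exact le_rfl
  | cons v V ih =>
    unfold tab at ih ⊢
    rw [List.map_cons, List.map_cons, sz_cons, sz_cons, sz_pair, sz_pair]
    have := sz_mono (h v)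
    omega

@[fun_prop]
theorem pt_T {A : α → List ((ℕ × ℕ) × ℕ)} {x : α → List (ℕ × ℕ)} {v : α → ℕ}
    (hA : IsPolyTime A) (hx : IsPolyTime x) (hv : IsPolyTime v) :
    IsPolyTime (fun a => T (A a) (vec (x a)) (v a)) := by
  unfold T
  fun_prop

/-! ### Powers of two -/

/-- repeated doubling -/
def dbl (L : List ℕ) (n : ℕ) : ℕ := L.foldl (fun s _ => 2 * s) n

theorem dbl_eq (L : List ℕ) (n : ℕ) : dbl L n = 2 ^ L.length * n := by
  induction L generalizing n with
  | nil => simp [dbl]
  | cons b L ih =>
    have e : dbl (b :: L) n = dbl L (2 * n) := rfl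
    rw [e, ih, List.length_cons, pow_succ]
    ring

@[fun_prop]
theorem pt_dbl {L : α → List ℕ} {n : α → ℕ} (hL : IsPolyTime L) (hn : IsPolyTime n) :
    IsPolyTime (fun a => dbl (L a) (n a)) := by
  obtain ⟨q, hq⟩ := exists_size (pt_pair hL hn)
  refine pt_foldl (g := fun (_ : α) (s : ℕ) (_ : ℕ) => 2 * s) (by fun_prop) hL hn q ?_
  intro a k
  have h1 : ((L a).take k).foldl (fun s _ => 2 * s) (n a) = 2 ^ ((L a).take k).length * n a :=
    dbl_eq _ _
  rw [h1]
  have h2 := sz_two_pow_mul_le ((L a).take k).length (n a)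
  have h3 := length_le_sz ((L a).take k)
  have h4 := sz_take_le (L a) k
  have h5 := hq a
  rw [sz_pair] at h5
  omega

/-- the powers `2 ^ (n - 1), .., 2, 1` -/
def pwL : ℕ → List ℕ
  | 0 => []
  | n + 1 => 2 ^ n :: pwL n

/-- computation of `2 ^ n` and `pwL n`, where `n` is the length of `l` -/
def pws (l : List Bool) : ℕ × List ℕ := l.foldl (fun s _ => (2 * s.1, s.1 :: s.2)) (1, [])

theorem pws_eq (l : List Bool) : pws l = (2 ^ l.length, pwL l.length) := by
  have h : ∀ (l : List Bool) (n : ℕ), l.foldl (fun s _ => (2 * s.1, s.1 :: s.2)) (2 ^ n, pwL n) =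
      (2 ^ (n + l.length), pwL (n + l.length)) := by
    intro l
    induction l with
    | nil => intro n; simp
    | cons b l ih =>
      intro n
      rw [List.foldl_cons]
      have e : (2 * ((2 : ℕ) ^ n, pwL n).1, ((2 : ℕ) ^ n, pwL n).1 :: ((2 : ℕ) ^ n, pwL n).2) =
          (2 ^ (n + 1), pwL (n + 1)) := by
        simp only [Prod.mk.injEq]
        refine ⟨?_, rfl⟩
        ring
      rw [e, ih, List.length_cons]
      have e2 : n + 1 + l.length = n + (l.length + 1) := by ring
      rw [e2]
  have := h l 0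
  rw [zero_add] at this
  exact this

theorem length_pwL (n : ℕ) : (pwL n).length = n := by
  induction n with
  | zero => rfl
  | succ n ih => rw [pwL, List.length_cons, ih]

theorem mem_pwL {n p : ℕ} (h : p ∈ pwL n) : 0 < p ∧ p ≤ 2 ^ n := by
  induction n with
  | zero => simp [pwL] at h
  | succ n ih =>
    rw [pwL, List.mem_cons] at h
    rcases h with rfl | h
    · exact ⟨Nat.two_pow_pos n, Nat.pow_le_pow_right (by norm_num) (Nat.le_succ n)⟩
    · exact ⟨(ih h).1, (ih h).2.trans (Nat.pow_le_pow_right (by norm_num) (Nat.le_succ n))⟩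

theorem sum_pwL (n : ℕ) : (pwL n).sum + 1 = 2 ^ n := by
  induction n with
  | zero => rfl
  | succ n ih =>
    rw [pwL, List.sum_cons, pow_succ]
    omega

theorem sz_two_pow (n : ℕ) : sz ((2 : ℕ) ^ n) ≤ n + 1 := by
  have h := sz_two_pow_mul_le n 1
  rw [mul_one] at h
  have h1 := sz_nat_le 1
  omega

@[fun_prop]
theorem pt_pws {l : α → List Bool} (hl : IsPolyTime l) : IsPolyTime (fun a => pws (l a)) := by
  obtain ⟨q, hq⟩ := exists_size hl
  refine pt_foldl (g := fun (_ : α) (s : ℕ × List ℕ) (_ : Bool) => (2 * s.1, s.1 :: s.2))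
    (by fun_prop) hl (pt_const _) (2 * (q + 1) + 1 + q * (2 * (q + 1) + 1)) ?_
  intro a k
  have h1 : ((l a).take k).foldl (fun s _ => (2 * s.1, s.1 :: s.2)) (1, []) =
    pws ((l a).take k) := rfl
  rw [h1, pws_eq, sz_pair]
  set n := ((l a).take k).length with hn
  have h3 := length_le_sz ((l a).take k)
  have h4 := sz_take_le (l a) k
  have h5 := hq a
  have hnq : n ≤ q.eval (sz a) := by omega
  have h6 := sz_two_pow n
  have h7 : sz (pwL n) ≤ n * (2 * (n + 1) + 1) := by
    have h8 : ∀ p ∈ pwL n, sz p ≤ n + 1 := fun p hp =>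
      (sz_mono (mem_pwL hp).2).trans (sz_two_pow n)
    have h9 := sz_le_mul h8
    rwa [length_pwL] at h9
  have h10 : n * (2 * (n + 1) + 1) ≤ q.eval (sz a) * (2 * (q.eval (sz a) + 1) + 1) :=
    Nat.mul_le_mul hnq (by omega)
  simp only [Polynomial.eval_add, Polynomial.eval_mul, Polynomial.eval_ofNat,
    Polynomial.eval_one]
  omega

/-- the greedy computation of the binary expansion -/
theorem greedy_eq {n t c : ℕ} (h1 : c ≤ t) (h2 : t < c + 2 ^ n) (P : ℕ → ℕ → Bool)
    (hP : ∀ c p, 0 < p → (P c p = true ↔ c + p ≤ t)) :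
    (pwL n).foldl (fun c p => if P c p then c + p else c) c = t := by
  induction n generalizing c with
  | zero => simp only [pwL, List.foldl_nil]; omega
  | succ n ih =>
    rw [pwL, List.foldl_cons]
    have hp : 0 < 2 ^ n := Nat.two_pow_pos n
    have h3 : 2 ^ (n + 1) = 2 ^ n + 2 ^ n := by ring
    by_cases h : P c (2 ^ n) = true
    · rw [if_pos h]
      exact ih ((hP _ _ hp).mp h) (by omega)
    · rw [if_neg h]
      rw [hP _ _ hp] at h
      exact ih h1 (by omega)

theorem greedy_le (L : List ℕ) (c : ℕ) (P : ℕ → ℕ → Bool) :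
    L.foldl (fun c p => if P c p then c + p else c) c ≤ c + L.sum := by
  induction L generalizing c with
  | nil => simp
  | cons p L ih =>
    rw [List.foldl_cons, List.sum_cons]
    refine (ih _).trans ?_
    split_ifs <;> omega

end Pool.Agent.Lib.MP_c29043_lc
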