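import Pool.Agent.Lib.MP_c29043_lc.Solve

/-!
# The chain gadget: in-degree at most two
-/

set_option autoImplicit false

open N68a2faeb N487b59b3 Pool.Agent.Lib.PolyTime

namespace Pool.Agent.Lib.MP_c29043_lc

variable {α : Type} [N487b59b3 α]

/-- the nodes that compute the maximum -/
def chP (v t : ℕ) : ℕ := name ((v, t), false)

/-- the auxiliary nodes -/
def chQ (v t : ℕ) : ℕ := name ((v, t), true)

theorem chP_inj {v t v' t' : ℕ} : chP v t = chP v' t' ↔ v = v' ∧ t = t' := by
  constructor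
  · intro h
    have := name_injective h
    simpa using this
  · rintro ⟨rfl, rfl⟩; rfl

theorem chQ_inj {v t v' t' : ℕ} : chQ v t = chQ v' t' ↔ v = v' ∧ t = t' := by
  constructor
  · intro h
    have := name_injective h
    simpa using this
  · rintro ⟨rfl, rfl⟩; rfl

theorem chP_ne {v t v' t' : ℕ} : chP v t ≠ chQ v' t' := by
  intro h
  have := name_injective h
  simp at this

/-- arcs of the first kind -/
def ch1 (A : List ((ℕ × ℕ) × ℕ)) : List ((ℕ × ℕ) × ℕ) :=
  A.zipIdx.map fun e => ((chP e.1.1.1 A.length, chP e.1.1.2 (e.2 + 1)), e.1.2)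

/-- arcs of the second kind -/
def ch2 (A : List ((ℕ × ℕ) × ℕ)) : List ((ℕ × ℕ) × ℕ) :=
  (verts A).flatMap fun v => (List.range A.length).map fun t => ((chP v t, chQ v (t + 1)), wts A)

/-- arcs of the third kind -/
def ch3 (A : List ((ℕ × ℕ) × ℕ)) : List ((ℕ × ℕ) × ℕ) :=
  (verts A).flatMap fun v => (List.range A.length).map fun t =>
    ((chQ v (t + 1), chP v (t + 1)), wts A)

/-- the chain gadget -/
def chain (A : List ((ℕ × ℕ) × ℕ)) : List ((ℕ × ℕ) × ℕ) := ch1 A ++ (ch2 A ++ ch3 A)

theorem mem_ch1 {A : List ((ℕ × ℕ) × ℕ)} {f : (ℕ × ℕ) × ℕ} :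
    f ∈ ch1 A ↔ ∃ t e, A[t]? = some e ∧ ((chP e.1.1 A.length, chP e.1.2 (t + 1)), e.2) = f := by
  unfold ch1
  rw [List.mem_map]
  constructor
  · rintro ⟨⟨e, t⟩, h, rfl⟩
    rw [List.mem_zipIdx_iff_getElem?] at h
    exact ⟨t, e, h, rfl⟩
  · rintro ⟨t, e, h, rfl⟩
    exact ⟨(e, t), by rw [List.mem_zipIdx_iff_getElem?]; exact h, rfl⟩

theorem mem_ch2 {A : List ((ℕ × ℕ) × ℕ)} {f : (ℕ × ℕ) × ℕ} :
    f ∈ ch2 A ↔ ∃ v t, v ∈ verts A ∧ t < A.length ∧ ((chP v t, chQ v (t + 1)), wts A) = f := by
  unfold ch2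
  simp only [List.mem_flatMap, List.mem_map, List.mem_range]
  constructor
  · rintro ⟨v, hv, t, ht, rfl⟩; exact ⟨v, t, hv, ht, rfl⟩
  · rintro ⟨v, t, hv, ht, rfl⟩; exact ⟨v, hv, t, ht, rfl⟩

theorem mem_ch3 {A : List ((ℕ × ℕ) × ℕ)} {f : (ℕ × ℕ) × ℕ} :
    f ∈ ch3 A ↔ ∃ v t, v ∈ verts A ∧ t < A.length ∧
      ((chQ v (t + 1), chP v (t + 1)), wts A) = f := by
  unfold ch3
  simp only [List.mem_flatMap, List.mem_map, List.mem_range]
  constructor
  · rintro ⟨v, hv, t, ht, rfl⟩; exact ⟨v, t, hv, ht, rfl⟩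
  · rintro ⟨v, t, hv, ht, rfl⟩; exact ⟨v, hv, t, ht, rfl⟩

theorem mem_chain {A : List ((ℕ × ℕ) × ℕ)} {f : (ℕ × ℕ) × ℕ} :
    f ∈ chain A ↔ f ∈ ch1 A ∨ f ∈ ch2 A ∨ f ∈ ch3 A := by
  unfold chain
  rw [List.mem_append, List.mem_append]

theorem wts_even {A : List ((ℕ × ℕ) × ℕ)} (hA : IsWDigraph A) : Even (wts A) := by
  rcases lmax_mem (A.map fun e => e.2) with h | h
  · rw [wts, h]; exact ⟨0, rfl⟩
  · obtain ⟨e, he, h2⟩ := List.mem_map.mp h
    have := hA.even e he
    rw [h2] at this
    exact this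

/-- Correctness of the gadget. -/
theorem chain_correct {A : List ((ℕ × ℕ) × ℕ)} {y : ℕ → ℕ} (hy : IsCover (chain A) y) :
    IsCover A fun v => y (chP v A.length) := by
  have hle : ∀ z, y z ≤ wts A := by
    intro z
    by_contra h
    push Not at h
    obtain ⟨f, hf, hfz, h1⟩ := hy.tight z (by omega)
    have h2 : f.2 ≤ wts A := by
      rcases mem_chain.mp hf with h3 | h3 | h3
      · obtain ⟨t, e, he, rfl⟩ := mem_ch1.mp h3
        exact le_wts e (List.mem_of_getElem? he)
      · obtain ⟨v, t, _, _, rfl⟩ := mem_ch2.mp h3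
        exact le_rfl
      · obtain ⟨v, t, _, _, rfl⟩ := mem_ch3.mp h3
        exact le_rfl
    omega
  have hQ : ∀ v t, v ∈ verts A → t < A.length →
      y (chP v t) + y (chQ v (t + 1)) = wts A := by
    intro v t hv ht
    have h1 : wts A ≤ y (chP v t) + y (chQ v (t + 1)) :=
      hy.cover ((chP v t, chQ v (t + 1)), wts A)
        (mem_chain.mpr (Or.inr (Or.inl (mem_ch2.mpr ⟨v, t, hv, ht, rfl⟩))))
    rcases Nat.eq_zero_or_pos (y (chQ v (t + 1))) with h0 | h0
    · have := hle (chP v t)
      omega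
    · obtain ⟨f, hf, hfz, h2⟩ := hy.tight _ h0
      rcases mem_chain.mp hf with h3 | h3 | h3
      · obtain ⟨t', e, he, rfl⟩ := mem_ch1.mp h3
        exact absurd hfz chP_ne
      · obtain ⟨v', t', _, _, rfl⟩ := mem_ch2.mp h3
        obtain ⟨rfl, h4⟩ := chQ_inj.mp hfz
        obtain rfl : t' = t := by omega
        exact h2
      · obtain ⟨v', t', _, _, rfl⟩ := mem_ch3.mp h3
        exact absurd hfz chP_ne
  have hPQ : ∀ v t, v ∈ verts A → t < A.length →
      wts A ≤ y (chQ v (t + 1)) + y (chP v (t + 1)) := fun v t hv ht =>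
    hy.cover ((chQ v (t + 1), chP v (t + 1)), wts A)
      (mem_chain.mpr (Or.inr (Or.inr (mem_ch3.mpr ⟨v, t, hv, ht, rfl⟩))))
  have hmono : ∀ v t, v ∈ verts A → t < A.length → y (chP v t) ≤ y (chP v (t + 1)) := by
    intro v t hv ht
    have h1 := hQ v t hv ht
    have h2 := hPQ v t hv ht
    omega
  have hmono' : ∀ v t s, v ∈ verts A → t + s ≤ A.length → y (chP v t) ≤ y (chP v (t + s)) := by
    intro v t s hv
    induction s with
    | zero => intro _; exact le_rfl
    | succ s ih =>
      intro hs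
      exact (ih (by omega)).trans (hmono v (t + s) hv (by omega))
  refine ⟨fun e he => ?_, fun v hv => ?_⟩
  · obtain ⟨t, ht, hte⟩ := List.getElem_of_mem he
    have h1 : e.2 ≤ y (chP e.1.1 A.length) + y (chP e.1.2 (t + 1)) :=
      hy.cover ((chP e.1.1 A.length, chP e.1.2 (t + 1)), e.2)
        (mem_chain.mpr (Or.inl (mem_ch1.mpr ⟨t, e, by rw [List.getElem?_eq_getElem ht, hte], rfl⟩)))
    have h2 := hmono' e.1.2 (t + 1) (A.length - (t + 1)) (mem_verts he).2 (by omega)
    have h3 : t + 1 + (A.length - (t + 1)) = A.length := by omega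
    rw [h3] at h2
    exact h1.trans (by omega)
  · have key : ∀ t, t ≤ A.length → 0 < y (chP v t) →
        ∃ e ∈ A, e.1.2 = v ∧ y (chP e.1.1 A.length) + y (chP v t) = e.2 := by
      intro t
      induction t with
      | zero =>
        intro _ h0
        obtain ⟨f, hf, hfz, h2⟩ := hy.tight _ h0
        exfalso
        rcases mem_chain.mp hf with h3 | h3 | h3
        · obtain ⟨t', e, he, rfl⟩ := mem_ch1.mp h3
          have := (chP_inj.mp hfz).2
          omega
        · obtain ⟨v', t', _, _, rfl⟩ := mem_ch2.mp h3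
          exact chP_ne hfz.symm
        · obtain ⟨v', t', _, _, rfl⟩ := mem_ch3.mp h3
          have := (chP_inj.mp hfz).2
          omega
      | succ t ih =>
        intro ht h0
        obtain ⟨f, hf, hfz, h2⟩ := hy.tight _ h0
        rcases mem_chain.mp hf with h3 | h3 | h3
        · obtain ⟨t', e, he, rfl⟩ := mem_ch1.mp h3
          exact ⟨e, List.mem_of_getElem? he, (chP_inj.mp hfz).1, h2⟩
        · obtain ⟨v', t', _, _, rfl⟩ := mem_ch2.mp h3
          exact absurd hfz.symm chP_ne
        · obtain ⟨v', t', hv', ht', rfl⟩ := mem_ch3.mp h3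
          obtain ⟨rfl, h4⟩ := chP_inj.mp hfz
          obtain rfl : t' = t := by omega
          have h5 := hQ v' t' hv' ht'
          have h6 : y (chQ v' (t' + 1)) + y (chP v' (t' + 1)) = wts A := h2
          have h7 : y (chP v' t') = y (chP v' (t' + 1)) := by omega
          rw [← h7] at h0 ⊢
          exact ih (by omega) h0
    exact key A.length le_rfl hv

theorem nodup_keys (A : List ((ℕ × ℕ) × ℕ)) :
    ((chain A).map Prod.fst).Nodup := by
  have hr : (List.range A.length).Nodup := List.nodup_range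
  unfold chain
  rw [List.map_append, List.map_append, List.nodup_append', List.nodup_append']
  refine ⟨?_, ⟨?_, ?_, ?_⟩, ?_⟩
  · -- first kind
    unfold ch1
    rw [List.map_map, List.nodup_map_iff_inj_on]
    · rintro ⟨e, t⟩ h1 ⟨e', t'⟩ h2 h
      rw [List.mem_zipIdx_iff_getElem?] at h1 h2
      simp only [Function.comp, Prod.mk.injEq, chP_inj] at h h1 h2
      obtain rfl : t = t' := by omega
      rw [h1] at h2
      injection h2 with h2
      rw [h2]
    · exact List.Nodup.of_map Prod.snd (by rw [List.zipIdx_map_snd]; exact List.nodup_range')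
  · unfold ch2
    rw [List.map_flatMap, List.nodup_flatMap]
    refine ⟨fun v _ => ?_, ?_⟩
    · rw [List.map_map]
      refine hr.map ?_
      intro t t' h
      simp only [Function.comp, Prod.mk.injEq, chP_inj] at h
      exact h.1.2
    · refine (verts_nodup A).imp ?_
      intro v v' hvv' c h1 h2
      simp only [List.map_map, List.mem_map, List.mem_range, Function.comp] at h1 h2
      obtain ⟨t, _, rfl⟩ := h1
      obtain ⟨t', _, h⟩ := h2
      simp only [Prod.mk.injEq, chP_inj] at h
      exact hvv' h.1.1.symm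
  · unfold ch3
    rw [List.map_flatMap, List.nodup_flatMap]
    refine ⟨fun v _ => ?_, ?_⟩
    · rw [List.map_map]
      refine hr.map ?_
      intro t t' h
      simp only [Function.comp, Prod.mk.injEq, chP_inj] at h
      omega
    · refine (verts_nodup A).imp ?_
      intro v v' hvv' c h1 h2
      simp only [List.map_map, List.mem_map, List.mem_range, Function.comp] at h1 h2
      obtain ⟨t, _, rfl⟩ := h1
      obtain ⟨t', _, h⟩ := h2
      simp only [Prod.mk.injEq, chP_inj] at h
      exact hvv' h.2.1.symm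
  · intro c h1 h2
    obtain ⟨f, hf, rfl⟩ := List.mem_map.mp h1
    obtain ⟨g, hg, h⟩ := List.mem_map.mp h2
    obtain ⟨v, t, _, _, rfl⟩ := mem_ch2.mp hf
    obtain ⟨v', t', _, _, rfl⟩ := mem_ch3.mp hg
    simp only [Prod.mk.injEq] at h
    exact chP_ne h.2
  · intro c h1 h2
    rw [List.mem_append] at h2
    obtain ⟨f, hf, rfl⟩ := List.mem_map.mp h1
    obtain ⟨t, e, he, rfl⟩ := mem_ch1.mp hf
    rcases h2 with h2 | h2
    · obtain ⟨g, hg, h⟩ := List.mem_map.mp h2
      obtain ⟨v', t', _, _, rfl⟩ := mem_ch2.mp hg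
      simp only [Prod.mk.injEq] at h
      exact chP_ne h.2.symm
    · obtain ⟨g, hg, h⟩ := List.mem_map.mp h2
      obtain ⟨v', t', _, _, rfl⟩ := mem_ch3.mp hg
      simp only [Prod.mk.injEq] at h
      exact chP_ne h.1.symm

theorem isWDigraph_chain {A : List ((ℕ × ℕ) × ℕ)} (hA : IsWDigraph A) : IsWDigraph (chain A) := by
  refine ⟨nodup_keys A, fun f hf => ?_⟩
  rcases mem_chain.mp hf with h3 | h3 | h3
  · obtain ⟨t, e, he, rfl⟩ := mem_ch1.mp h3
    exact hA.even e (List.mem_of_getElem? he)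
  · obtain ⟨v, t, _, _, rfl⟩ := mem_ch2.mp h3
    exact wts_even hA
  · obtain ⟨v, t, _, _, rfl⟩ := mem_ch3.mp h3
    exact wts_even hA

theorem bipartite_chain {A : List ((ℕ × ℕ) × ℕ)} (hA : Bipartite A) : Bipartite (chain A) := by
  classical
  obtain ⟨c, hc⟩ := hA
  set c' : ℕ → Bool := fun z => decide ((∃ v t, z = chP v t ∧ c v = true) ∨
    (∃ v t, z = chQ v t ∧ c v = false)) with hc'
  have h1 : ∀ v t, c' (chP v t) = c v := by
    intro v t
    rw [hc', Bool.eq_iff_iff, decide_eq_true_iff]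
    constructor
    · rintro (⟨v', t', h, h2⟩ | ⟨v', t', h, _⟩)
      · rw [(chP_inj.mp h).1]; exact h2
      · exact absurd h chP_ne
    · intro h
      exact Or.inl ⟨v, t, rfl, h⟩
  have h2 : ∀ v t, c' (chQ v t) = !(c v) := by
    intro v t
    rw [hc', Bool.eq_iff_iff, decide_eq_true_iff]
    constructor
    · rintro (⟨v', t', h, _⟩ | ⟨v', t', h, h2⟩)
      · exact absurd h.symm chP_ne
      · rw [(chQ_inj.mp h).1, h2]; rfl
    · intro h
      refine Or.inr ⟨v, t, rfl, ?_⟩
      simpa using h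
  refine ⟨c', fun f hf => ?_⟩
  rcases mem_chain.mp hf with h3 | h3 | h3
  · obtain ⟨t, e, he, rfl⟩ := mem_ch1.mp h3
    simp only [h1]
    exact hc e (List.mem_of_getElem? he)
  · obtain ⟨v, t, _, _, rfl⟩ := mem_ch2.mp h3
    simp only [h1, h2]
    cases c v <;> simp
  · obtain ⟨v, t, _, _, rfl⟩ := mem_ch3.mp h3
    simp only [h1, h2]
    cases c v <;> simp

/-- at most one arc of each kind enters a node -/
theorem length_filter_le_one {B : List ((ℕ × ℕ) × ℕ)} (hB : (B.map Prod.fst).Nodup) {z : ℕ}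
    (h : ∀ f ∈ B, ∀ g ∈ B, f.1.2 = z → g.1.2 = z → f = g) :
    (B.filter fun a => a.1.2 = z).length ≤ 1 := by
  have h1 : (B.filter fun a => a.1.2 = z).Nodup := (List.Nodup.of_map _ hB).filter _
  by_contra hcon
  push Not at hcon
  have e0 : (B.filter fun a => a.1.2 = z)[0] ∈ B.filter fun a => a.1.2 = z :=
    List.getElem_mem _
  have e1 : (B.filter fun a => a.1.2 = z)[1] ∈ B.filter fun a => a.1.2 = z :=
    List.getElem_mem _
  have h2 := List.mem_filter.mp e0
  have h3 := List.mem_filter.mp e1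
  have h4 := h _ h2.1 _ h3.1 (by simpa using h2.2) (by simpa using h3.2)
  have h5 := (List.Nodup.getElem_inj_iff h1).mp h4
  omega

theorem inDeg_chain (A : List ((ℕ × ℕ) × ℕ)) : InDegLeTwo (chain A) := by
  intro z
  have hn := nodup_keys A
  unfold chain at hn ⊢
  rw [List.map_append, List.map_append, List.nodup_append', List.nodup_append'] at hn
  rw [List.filter_append, List.filter_append, List.length_append, List.length_append]
  by_cases hz : ∃ v t, z = chQ v t
  · obtain ⟨v, t, rfl⟩ := hz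
    have h1 : ((ch1 A).filter fun a => a.1.2 = chQ v t).length = 0 := by
      rw [List.length_eq_zero_iff, List.filter_eq_nil_iff]
      intro f hf
      obtain ⟨t', e, he, rfl⟩ := mem_ch1.mp hf
      simpa using chP_ne
    have h3 : ((ch3 A).filter fun a => a.1.2 = chQ v t).length = 0 := by
      rw [List.length_eq_zero_iff, List.filter_eq_nil_iff]
      intro f hf
      obtain ⟨v', t', _, _, rfl⟩ := mem_ch3.mp hf
      simpa using chP_ne
    have h2 : ((ch2 A).filter fun a => a.1.2 = chQ v t).length ≤ 1 := by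
      apply length_filter_le_one hn.2.1.1
      intro f hf g hg h4 h5
      obtain ⟨v', t', _, _, rfl⟩ := mem_ch2.mp hf
      obtain ⟨v'', t'', _, _, rfl⟩ := mem_ch2.mp hg
      have h6 := chQ_inj.mp h4
      have h7 := chQ_inj.mp h5
      obtain rfl : v' = v'' := by omega
      obtain rfl : t' = t'' := by omega
      rfl
    omega
  · push Not at hz
    have h2 : ((ch2 A).filter fun a => a.1.2 = z).length = 0 := by
      rw [List.length_eq_zero_iff, List.filter_eq_nil_iff]
      intro f hf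
      obtain ⟨v', t', _, _, rfl⟩ := mem_ch2.mp hf
      simpa using fun h : chQ v' (t' + 1) = z => hz _ _ h.symm
    have h1 : ((ch1 A).filter fun a => a.1.2 = z).length ≤ 1 := by
      apply length_filter_le_one hn.1
      intro f hf g hg h4 h5
      obtain ⟨t', e', he', rfl⟩ := mem_ch1.mp hf
      obtain ⟨t'', e'', he'', rfl⟩ := mem_ch1.mp hg
      have h6 := chP_inj.mp (h4.trans h5.symm)
      obtain rfl : t' = t'' := by omega
      rw [he'] at he''
      injection he'' with he''
      rw [he'']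
    have h3 : ((ch3 A).filter fun a => a.1.2 = z).length ≤ 1 := by
      apply length_filter_le_one hn.2.1.2.1
      intro f hf g hg h4 h5
      obtain ⟨v', t', _, _, rfl⟩ := mem_ch3.mp hf
      obtain ⟨v'', t'', _, _, rfl⟩ := mem_ch3.mp hg
      have h6 := chP_inj.mp (h4.trans h5.symm)
      obtain rfl : v' = v'' := by omega
      obtain rfl : t' = t'' := by omega
      rfl
    omega

theorem pt_chP {v t : α → ℕ} (hv : IsPolyTime v) (ht : IsPolyTime t) :
    IsPolyTime (fun a => chP (v a) (t a)) := by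
  unfold chP
  fun_prop

theorem pt_chQ {v t : α → ℕ} (hv : IsPolyTime v) (ht : IsPolyTime t) :
    IsPolyTime (fun a => chQ (v a) (t a)) := by
  unfold chQ
  fun_prop

theorem pt_chain {A : α → List ((ℕ × ℕ) × ℕ)} (hA : IsPolyTime A) :
    IsPolyTime (fun a => chain (A a)) := by
  have hr : IsPolyTime (fun a => List.range (A a).length) := pt_range hA
  have hr' : IsPolyTime (fun p : α × ℕ => List.range (A p.1).length) :=
    pt_comp (g := fun a => List.range (A a).length) hr pt_fst'
  unfold chain ch1 ch2 ch3 chP chQ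
  refine pt_append ?_ (pt_append ?_ ?_)
  · fun_prop
  · refine pt_flatMap (by fun_prop) (pt_map hr' ?_)
    fun_prop
  · refine pt_flatMap (by fun_prop) (pt_map hr' ?_)
    fun_prop

end Pool.Agent.Lib.MP_c29043_lc
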