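import Mathlib
import Pool.Prelude.Def_H_3587d628

/-!
# Orientation-compatible covers and mean payoff games: definitions

Nodes of digraphs and positions of games are natural numbers.  `N68a2faeb.IsPolyTime` (from
`Pool.Prelude`) is polynomial time on multi-stack Turing machines, with natural numbers and
integers written in binary.
-/

set_option autoImplicit false

namespace Pool.Agent.Lib.MP_c29043_lc

/-! ### Covers -/

/-- A simple digraph (given by the list of its arcs `((u, v), w)`, from `u` to `v`, with weight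
`w`) with non-negative even weights.  Loops are allowed. -/
structure IsWDigraph (A : List ((ℕ × ℕ) × ℕ)) : Prop where
  nodup : (A.map Prod.fst).Nodup
  even : ∀ a ∈ A, Even a.2

/-- `x` is an orientation-compatible `w`-vertex cover of the digraph `A`. -/
structure IsCover (A : List ((ℕ × ℕ) × ℕ)) (x : ℕ → ℕ) : Prop where
  cover : ∀ a ∈ A, a.2 ≤ x a.1.1 + x a.1.2
  tight : ∀ v, 0 < x v → ∃ a ∈ A, a.1.2 = v ∧ x a.1.1 + x v = a.2

/-- The vector described by a list of pairs (node, value); it is `0` elsewhere. -/
def vec (l : List (ℕ × ℕ)) (v : ℕ) : ℕ := (l.lookup v).getD 0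

/-- the digraph has no odd cycle, in particular no loop -/
def Bipartite (A : List ((ℕ × ℕ) × ℕ)) : Prop := ∃ c : ℕ → Bool, ∀ a ∈ A, c a.1.1 ≠ c a.1.2

/-- all in-degrees are at most two -/
def InDegLeTwo (A : List ((ℕ × ℕ) × ℕ)) : Prop :=
  ∀ v, (A.filter fun a => a.1.2 = v).length ≤ 2

/-- There is a polynomial time algorithm that computes orientation-compatible covers of the
digraphs with even weights that satisfy `P`.  Here a digraph is a list of arcs; loops and parallel
arcs are allowed unless `P` excludes them. -/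
def CoversInP (P : List ((ℕ × ℕ) × ℕ) → Prop) : Prop :=
  ∃ f : List ((ℕ × ℕ) × ℕ) → List (ℕ × ℕ), N68a2faeb.IsPolyTime f ∧
    ∀ A, (∀ a ∈ A, Even a.2) → P A → IsCover A (vec (f A))

/-! ### Mean payoff games -/

/-- A mean payoff game: the first component is the list of the arcs `((i, j), c)` of a simple
digraph with integer weights, the second component lists the positions at which Max moves; Min
moves at all other positions.  Every position that can be reached by an arc has a move. -/
structure IsGame (G : List ((ℕ × ℕ) × ℤ) × List ℕ) : Prop where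
  nodup : (G.1.map Prod.fst).Nodup
  moves : ∀ a ∈ G.1, ∃ b ∈ G.1, b.1.1 = a.1.2

/-- An infinite play from the position `v`, as a sequence of arcs. -/
structure IsPlay (G : List ((ℕ × ℕ) × ℤ) × List ℕ) (v : ℕ) (p : ℕ → (ℕ × ℕ) × ℤ) : Prop where
  start : (p 0).1.1 = v
  arc : ∀ n, p n ∈ G.1
  next : ∀ n, (p (n + 1)).1.1 = (p n).1.2

/-- A strategy of Max: a legal move for every history `h` (list of the arcs traversed so far) and
every position `i` of Max. -/
structure IsStrategy (G : List ((ℕ × ℕ) × ℤ) × List ℕ)
    (σ : List ((ℕ × ℕ) × ℤ) → ℕ → (ℕ × ℕ) × ℤ) : Prop where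
  legal : ∀ h i, i ∈ G.2 → (∃ a ∈ G.1, a.1.1 = i) → σ h i ∈ G.1 ∧ (σ h i).1.1 = i

/-- The mean payoff of a play. -/
noncomputable def payoff (p : ℕ → (ℕ × ℕ) × ℤ) : ℝ :=
  Filter.liminf (fun n : ℕ => (∑ k ∈ Finset.range n, ((p k).2 : ℝ)) / n) Filter.atTop

/-- Max has a strategy that guarantees a mean payoff of at least `0` from the position `v`. -/
def MaxWins (G : List ((ℕ × ℕ) × ℤ) × List ℕ) (v : ℕ) : Prop :=
  ∃ σ, IsStrategy G σ ∧ ∀ p, IsPlay G v p →
    (∀ n, (p n).1.1 ∈ G.2 → p n = σ ((List.range n).map p) (p n).1.1) → 0 ≤ payoff p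

/-- `f` decides, for every mean payoff game and every position `v` with a move, whether Max can
guarantee a mean payoff of at least `0` from `v`. -/
def Decides (f : (List ((ℕ × ℕ) × ℤ) × List ℕ) × ℕ → Bool) : Prop :=
  ∀ G v, IsGame G → (∃ a ∈ G.1, a.1.1 = v) → (f (G, v) = true ↔ MaxWins G v)

/-- Mean payoff games can be decided in polynomial time. -/
def GamesInP : Prop :=
  ∃ f : (List ((ℕ × ℕ) × ℤ) × List ℕ) × ℕ → Bool, N68a2faeb.IsPolyTime f ∧ Decides f

end Pool.Agent.Lib.MP_c29043_lc
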