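import Pool.Agent.Lib.MP_c29043_lc.Defs

/-!
# The antitone operator of a weighted digraph and its fixed points
-/

set_option autoImplicit false

namespace Pool.Agent.Lib.MP_c29043_lc

/-! ### Maximum of a list -/

/-- maximum of a list of naturals, at least `0` -/
def lmax (l : List ℕ) : ℕ := l.foldr max 0

theorem le_lmax {l : List ℕ} {a : ℕ} (h : a ∈ l) : a ≤ lmax l := by
  induction l with
  | nil => simp at h
  | cons b l ih =>
    rcases List.mem_cons.mp h with rfl | h
    · exact le_max_left _ _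
    · exact (ih h).trans (le_max_right _ _)

theorem lmax_le {l : List ℕ} {c : ℕ} (h : ∀ a ∈ l, a ≤ c) : lmax l ≤ c := by
  induction l with
  | nil => exact Nat.zero_le _
  | cons b l ih =>
    exact max_le (h b List.mem_cons_self) (ih fun a ha => h a (List.mem_cons_of_mem _ ha))

theorem lmax_mem (l : List ℕ) : lmax l = 0 ∨ lmax l ∈ l := by
  induction l with
  | nil => left; rfl
  | cons b l ih =>
    have e : lmax (b :: l) = max b (lmax l) := rfl
    rw [e]
    rcases le_total b (lmax l) with h | h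
    · rw [max_eq_right h]
      rcases ih with h1 | h1
      · left; exact h1
      · right; exact List.mem_cons_of_mem _ h1
    · rw [max_eq_left h]; right; exact List.mem_cons_self

/-! ### The operator -/

/-- `T x v = max (0, max_{u → v} (w - x u))` -/
def T (A : List ((ℕ × ℕ) × ℕ)) (x : ℕ → ℕ) (v : ℕ) : ℕ :=
  lmax ((A.filter fun a => decide (a.1.2 = v)).map fun a => a.2 - x a.1.1)

variable {A : List ((ℕ × ℕ) × ℕ)} {x y a b l g : ℕ → ℕ}

theorem le_T {e : (ℕ × ℕ) × ℕ} (he : e ∈ A) : e.2 - x e.1.1 ≤ T A x e.1.2 := by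
  apply le_lmax
  rw [List.mem_map]
  exact ⟨e, by rw [List.mem_filter]; exact ⟨he, by simp⟩, rfl⟩

theorem le_T_add {e : (ℕ × ℕ) × ℕ} (he : e ∈ A) : e.2 ≤ x e.1.1 + T A x e.1.2 := by
  have := le_T (x := x) he; omega

theorem T_le {v c : ℕ} (h : ∀ e ∈ A, e.1.2 = v → e.2 - x e.1.1 ≤ c) : T A x v ≤ c := by
  apply lmax_le
  intro m hm
  obtain ⟨e, he, rfl⟩ := List.mem_map.mp hm
  rw [List.mem_filter] at he
  exact h e he.1 (by simpa using he.2)

theorem T_attained {v : ℕ} (h : 0 < T A x v) :
    ∃ e ∈ A, e.1.2 = v ∧ x e.1.1 + T A x v = e.2 := by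
  rcases lmax_mem ((A.filter fun a => decide (a.1.2 = v)).map fun a => a.2 - x a.1.1) with h1 | h1
  · rw [T, h1] at h; exact absurd h (lt_irrefl _)
  · obtain ⟨e, he, h2⟩ := List.mem_map.mp h1
    rw [List.mem_filter] at he
    have h3 : e.2 - x e.1.1 = T A x v := h2
    exact ⟨e, he.1, by simpa using he.2, by omega⟩

theorem isCover_of_fix (h : ∀ v, T A x v = x v) : IsCover A x := by
  refine ⟨fun e he => ?_, fun v hv => ?_⟩
  · have := le_T_add (x := x) he
    rwa [h] at this
  · rw [← h v] at hv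
    obtain ⟨e, he, h1, h2⟩ := T_attained hv
    exact ⟨e, he, h1, by rw [h v] at h2; exact h2⟩

/-- antitone and nonexpansive -/
theorem T_nonexp {h : ℕ} (hxy : ∀ v, x v ≤ y v + h) (v : ℕ) : T A y v ≤ T A x v + h := by
  apply T_le
  intro e he hv
  have h1 := le_T (x := x) he
  have h2 := hxy e.1.1
  rw [hv] at h1
  omega

theorem T_anti (hxy : ∀ v, x v ≤ y v) (v : ℕ) : T A y v ≤ T A x v := by
  have := T_nonexp (A := A) (x := x) (y := y) (h := 0) (fun v => by simpa using hxy v) v
  simpa using this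

theorem T_le_bound {W : ℕ} (hW : ∀ e ∈ A, e.2 ≤ W) (v : ℕ) : T A x v ≤ W := by
  apply T_le
  intro e he _
  have := hW e he
  omega

/-- the monotone operator -/
def S (A : List ((ℕ × ℕ) × ℕ)) (x : ℕ → ℕ) : ℕ → ℕ := T A (T A x)

theorem S_mono (hxy : ∀ v, x v ≤ y v) (v : ℕ) : S A x v ≤ S A y v :=
  T_anti (T_anti hxy) v

/-- `l` is the least fixed point of `S` above `a`. -/
structure IsLfp (A : List ((ℕ × ℕ) × ℕ)) (a l : ℕ → ℕ) : Prop where
  fix : ∀ v, S A l v = l v
  ge : ∀ v, a v ≤ l v
  least : ∀ y : ℕ → ℕ, (∀ v, a v ≤ y v) → (∀ v, S A y v ≤ y v) → ∀ v, l v ≤ y v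

theorem IsLfp.unique (h : IsLfp A a l) {l' : ℕ → ℕ} (h' : IsLfp A a l') : l = l' := by
  funext v
  exact le_antisymm (h.least l' h'.ge (fun v => (h'.fix v).le) v)
    (h'.least l h.ge (fun v => (h.fix v).le) v)

/-- iterates of `S` -/
theorem iter_le (hy : ∀ v, a v ≤ y v) (hSy : ∀ v, S A y v ≤ y v) (k : ℕ) :
    ∀ v, (S A)^[k] a v ≤ y v := by
  induction k with
  | zero => exact hy
  | succ k ih =>
    intro v
    rw [Function.iterate_succ_apply']
    exact (S_mono ih v).trans (hSy v)

theorem iter_mono (ha : ∀ v, a v ≤ S A a v) (k : ℕ) :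
    ∀ v, (S A)^[k] a v ≤ (S A)^[k + 1] a v := by
  induction k with
  | zero => exact ha
  | succ k ih =>
    intro v
    rw [Function.iterate_succ_apply', Function.iterate_succ_apply']
    exact S_mono ih v

theorem iter_mono' (ha : ∀ v, a v ≤ S A a v) {j k : ℕ} (hjk : j ≤ k) :
    ∀ v, (S A)^[j] a v ≤ (S A)^[k] a v := by
  induction hjk with
  | refl => intro v; exact le_rfl
  | step _ ih => intro v; exact (ih v).trans (iter_mono ha _ v)

theorem isLfp_of_stable (ha : ∀ v, a v ≤ S A a v) {k : ℕ}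
    (hk : (S A)^[k + 1] a = (S A)^[k] a) : IsLfp A a ((S A)^[k] a) := by
  refine ⟨fun v => ?_, fun v => iter_mono' ha (Nat.zero_le k) v, fun y hy hSy => iter_le hy hSy k⟩
  rw [← Function.iterate_succ_apply' (S A) k a, hk]

/-- The iteration stabilises after at most `|V| * W` steps. -/
theorem exists_stable {V : Finset ℕ} {W : ℕ} (hV : ∀ e ∈ A, e.1.2 ∈ V) (hW : ∀ e ∈ A, e.2 ≤ W)
    (ha : ∀ v, a v ≤ S A a v) (haV : ∀ v, v ∉ V → a v = 0) :
    ∃ k ≤ V.card * W, (S A)^[k + 1] a = (S A)^[k] a := by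
  by_contra hcon
  push Not at hcon
  have hzero : ∀ k v, v ∉ V → (S A)^[k] a v = 0 := by
    intro k v hv
    cases k with
    | zero => exact haV v hv
    | succ k =>
      rw [Function.iterate_succ_apply']
      have : S A ((S A)^[k] a) v ≤ 0 := by
        apply T_le
        intro e he hev
        exact absurd (hev ▸ hV e he) hv
      omega
  have hsum : ∀ k ≤ V.card * W + 1, k ≤ ∑ v ∈ V, (S A)^[k] a v := by
    intro k
    induction k with
    | zero => intro _; exact Nat.zero_le _
    | succ k ih =>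
      intro hk
      have h1 := ih (by omega)
      have h2 := hcon k (by omega)
      have h3 : ∑ v ∈ V, (S A)^[k] a v < ∑ v ∈ V, (S A)^[k + 1] a v := by
        apply Finset.sum_lt_sum (fun v _ => iter_mono ha k v)
        by_contra h4
        push Not at h4
        apply h2
        funext v
        by_cases hv : v ∈ V
        · exact le_antisymm (h4 v hv) (iter_mono ha k v)
        · rw [hzero _ v hv, hzero _ v hv]
      omega
  have h1 := hsum (V.card * W + 1) le_rfl
  have h2 : ∑ v ∈ V, (S A)^[V.card * W + 1] a v ≤ ∑ _v ∈ V, W := by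
    refine Finset.sum_le_sum fun v _ => ?_
    rw [Function.iterate_succ_apply']
    exact T_le_bound hW v
  rw [Finset.sum_const, smul_eq_mul] at h2
  omega

theorem isLfp_iterate {V : Finset ℕ} {W : ℕ} (hV : ∀ e ∈ A, e.1.2 ∈ V) (hW : ∀ e ∈ A, e.2 ≤ W)
    (ha : ∀ v, a v ≤ S A a v) (haV : ∀ v, v ∉ V → a v = 0) {m : ℕ} (hm : V.card * W ≤ m) :
    IsLfp A a ((S A)^[m] a) := by
  obtain ⟨k, hk, hst⟩ := exists_stable hV hW ha haV
  have h1 := isLfp_of_stable ha hst
  have h2 : ∀ j, (S A)^[k + j] a = (S A)^[k] a := by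
    intro j
    induction j with
    | zero => rfl
    | succ j ih =>
      rw [← add_assoc, Function.iterate_succ_apply', ih, ← Function.iterate_succ_apply' (S A) k a, hst]
  obtain ⟨j, rfl⟩ : ∃ j, m = k + j := ⟨m - k, by omega⟩
  rw [h2]
  exact h1

/-! ### Invariant boxes -/

/-- The box `[a, b]` is invariant and has sides at most `h`. -/
structure Box (A : List ((ℕ × ℕ) × ℕ)) (a b : ℕ → ℕ) (h : ℕ) : Prop where
  le : ∀ v, a v ≤ b v
  up : ∀ v, T A a v ≤ b v
  low : ∀ v, a v ≤ T A b v
  side : ∀ v, b v ≤ a v + h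

theorem Box.le_S {h : ℕ} (hb : Box A a b h) (v : ℕ) : a v ≤ S A a v :=
  (hb.low v).trans (T_anti hb.up v)

theorem Box.lfp_props {h : ℕ} (hb : Box A a b h) (hl : IsLfp A a l) :
    (∀ v, T A (T A l) v = l v) ∧ (∀ v, l v ≤ T A l v) ∧ (∀ v, T A l v ≤ l v + h) := by
  have h1 : ∀ v, l v ≤ b v := by
    refine hl.least b hb.le fun v => ?_
    exact (T_anti (x := a) (y := T A b) hb.low v).trans (hb.up v)
  have h2 : ∀ v, a v ≤ T A l v := fun v => (hb.low v).trans (T_anti h1 v)
  have h3 : ∀ v, l v ≤ T A l v := by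
    refine hl.least (T A l) h2 fun v => ?_
    have : T A l = T A (S A l) := by
      congr 1
      funext v
      exact (hl.fix v).symm
    have e : S A (T A l) v = T A (S A l) v := rfl
    rw [e, ← this]
  refine ⟨hl.fix, h3, fun v => ?_⟩
  have h4 : T A l v ≤ T A a v := T_anti hl.ge v
  have h5 := hb.up v
  have h6 := hb.side v
  have h7 := hl.ge v
  omega

/-- Halving of an invariant box. -/
theorem Box.halve {h : ℕ} (hb : Box A a b (2 * h)) (hl : IsLfp A a l) :
    Box A (fun v => max (l v) (T A l v - h)) (fun v => min (T A l v) (l v + h)) h := by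
  obtain ⟨h1, h2, h3⟩ := hb.lfp_props hl
  refine ⟨fun v => ?_, fun v => ?_, fun v => ?_, fun v => ?_⟩
  · have := h2 v
    have := h3 v
    simp only [le_min_iff, max_le_iff]
    omega
  · apply le_min
    · exact T_anti (fun v => le_max_left _ _) v
    · have h4 := T_nonexp (A := A) (x := T A l) (y := fun v => max (l v) (T A l v - h)) (h := h)
        (fun v => by have := le_max_right (l v) (T A l v - h); omega) v
      rw [h1] at h4
      exact h4
  · apply max_le
    · have h4 := T_anti (A := A) (x := fun v => min (T A l v) (l v + h)) (y := T A l)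
        (fun v => min_le_left _ _) v
      rw [h1] at h4
      exact h4
    · have h4 := T_nonexp (A := A) (x := fun v => min (T A l v) (l v + h)) (y := l) (h := h)
        (fun v => min_le_right _ _) v
      omega
  · have := min_le_right (T A l v) (l v + h)
    have := le_max_left (l v) (T A l v - h)
    omega

theorem box_init {W h : ℕ} (hW : ∀ e ∈ A, e.2 ≤ W) (hh : W ≤ h) :
    Box A (fun _ => 0) (T A fun _ => 0) h :=
  ⟨fun _ => Nat.zero_le _, fun _ => le_rfl, fun _ => Nat.zero_le _, fun v => by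
    have := T_le_bound (x := fun _ => 0) hW v
    omega⟩

/-- The final rounding step. -/
theorem cover_of_pair (hA : ∀ e ∈ A, Even e.2) (h1 : ∀ v, T A (T A l) v = l v)
    (h2 : ∀ v, l v ≤ T A l v) (h3 : ∀ v, T A l v ≤ l v + 1) :
    IsCover A (fun v => if l v % 2 = 1 then T A l v else l v) := by
  set g := T A l with hg
  have ev : ∀ e ∈ A, e.2 % 2 = 0 := fun e he => Nat.even_iff.mp (hA e he)
  have hlg : ∀ e ∈ A, e.2 ≤ l e.1.1 + g e.1.2 := fun e he => le_T_add he
  have hgl : ∀ e ∈ A, e.2 ≤ g e.1.1 + l e.1.2 := by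
    intro e he
    have := le_T_add (x := g) he
    rwa [h1] at this
  refine ⟨fun e he => ?_, fun v hv => ?_⟩
  · have e1 := hlg e he
    have e2 := hgl e he
    have e3 := ev e he
    have e4 := h2 e.1.1
    have e5 := h3 e.1.1
    have e6 := h2 e.1.2
    have e7 := h3 e.1.2
    split_ifs <;> omega
  · have e6 := h2 v
    have e7 := h3 v
    by_cases hgv : g v = l v
    · -- use the arc attaining `l v = T g v`
      have hpos : 0 < T A g v := by
        rw [h1]
        split_ifs at hv <;> omega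
      obtain ⟨e, he, hev, h4⟩ := T_attained hpos
      rw [h1] at h4
      have e1 := hlg e he
      rw [hev, hgv] at e1
      have e4 := h2 e.1.1
      refine ⟨e, he, hev, ?_⟩
      split_ifs <;> omega
    · by_cases hodd : l v % 2 = 1
      · rw [if_pos hodd] at hv ⊢
        obtain ⟨e, he, hev, h4⟩ := T_attained (x := l) hv
        have e3 := ev e he
        refine ⟨e, he, hev, ?_⟩
        have h5 : l e.1.1 % 2 = 0 := by
          have : l e.1.1 + g v = e.2 := h4
          omega
        rw [if_neg (by omega)]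
        exact h4
      · rw [if_neg hodd] at hv ⊢
        have hpos : 0 < T A g v := by rw [h1]; exact hv
        obtain ⟨e, he, hev, h4⟩ := T_attained hpos
        rw [h1] at h4
        have e3 := ev e he
        have e4 := h2 e.1.1
        have e5 := h3 e.1.1
        refine ⟨e, he, hev, ?_⟩
        split_ifs <;> omega

end Pool.Agent.Lib.MP_c29043_lc
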