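import Pool.Agent.Lib.MP_c29043_lc.Defs

/-!
# Potentials for mean payoff games
-/

set_option autoImplicit false

open Filter Topology

namespace Pool.Agent.Lib.MP_c29043_lc

abbrev Arc := (ℕ × ℕ) × ℤ

/-- bound for a function on the endpoints of the arcs -/
theorem exists_bound (A : List Arc) (ψ : ℕ → ℤ) :
    ∃ C : ℤ, 0 ≤ C ∧ ∀ a ∈ A, |ψ a.1.1| ≤ C ∧ |ψ a.1.2| ≤ C ∧ |a.2| ≤ C := by
  induction A with
  | nil => exact ⟨0, le_rfl, by simp⟩
  | cons b A ih =>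
    obtain ⟨C, hC, h⟩ := ih
    refine ⟨C + |ψ b.1.1| + |ψ b.1.2| + |b.2|, by positivity, ?_⟩
    intro a ha
    have h1 := abs_nonneg (ψ b.1.1)
    have h2 := abs_nonneg (ψ b.1.2)
    have h3 := abs_nonneg b.2
    rcases List.mem_cons.mp ha with rfl | ha
    · refine ⟨by linarith, by linarith, by linarith⟩
    · obtain ⟨e1, e2, e3⟩ := h a ha
      exact ⟨by linarith, by linarith, by linarith⟩

theorem avg_bounded {G : List Arc × List ℕ} {v : ℕ} {p : ℕ → Arc} (hp : IsPlay G v p) :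
    ∃ C : ℝ, 0 ≤ C ∧ ∀ n : ℕ, |(∑ k ∈ Finset.range n, ((p k).2 : ℝ)) / n| ≤ C := by
  obtain ⟨C, hC, h⟩ := exists_bound G.1 (fun _ => 0)
  refine ⟨C, by exact_mod_cast hC, fun n => ?_⟩
  rcases Nat.eq_zero_or_pos n with rfl | hn
  · simpa using hC
  have hn' : (0 : ℝ) < n := by exact_mod_cast hn
  rw [abs_div, abs_of_pos hn', div_le_iff₀ hn']
  calc |∑ k ∈ Finset.range n, ((p k).2 : ℝ)| ≤ ∑ k ∈ Finset.range n, |((p k).2 : ℝ)| :=
        Finset.abs_sum_le_sum_abs _ _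
    _ ≤ ∑ _k ∈ Finset.range n, (C : ℝ) := by
        refine Finset.sum_le_sum fun k _ => ?_
        have := (h (p k) (hp.arc k)).2.2
        exact_mod_cast this
    _ = C * n := by rw [Finset.sum_const, Finset.card_range, nsmul_eq_mul]; ring

theorem payoff_nonneg {G : List Arc × List ℕ} {v : ℕ} {p : ℕ → Arc} (hp : IsPlay G v p) {C : ℝ}
    (h : ∀ n : ℕ, -C ≤ ∑ k ∈ Finset.range n, ((p k).2 : ℝ)) : 0 ≤ payoff p := by
  obtain ⟨B, hB, hb⟩ := avg_bounded hp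
  have h0 : Tendsto (fun n : ℕ => (-C) / (n : ℝ)) atTop (𝓝 0) :=
    tendsto_const_div_atTop_nhds_zero_nat (-C)
  rw [payoff, ← h0.liminf_eq]
  refine liminf_le_liminf ?_ ?_ ?_
  · refine Eventually.of_forall fun n => ?_
    exact div_le_div_of_nonneg_right (h n) (by positivity)
  · exact h0.isBoundedUnder_ge
  · refine IsCoboundedUnder.of_frequently_le (a := B) (Frequently.of_forall fun n => ?_)
    exact (abs_le.mp (hb n)).2

theorem payoff_neg {G : List Arc × List ℕ} {v : ℕ} {p : ℕ → Arc} (hp : IsPlay G v p) {C c : ℝ}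
    (hc : 0 < c) (h : ∀ n : ℕ, c * ∑ k ∈ Finset.range n, ((p k).2 : ℝ) + n ≤ C) :
    payoff p < 0 := by
  obtain ⟨B, hB, hb⟩ := avg_bounded hp
  have h0 : Tendsto (fun n : ℕ => (C / c) / (n : ℝ) - 1 / c) atTop (𝓝 (0 - 1 / c)) :=
    (tendsto_const_div_atTop_nhds_zero_nat (C / c)).sub_const _
  have h1 : payoff p ≤ 0 - 1 / c := by
    rw [payoff, ← h0.liminf_eq]
    refine liminf_le_liminf ?_ ?_ ?_
    · filter_upwards [eventually_gt_atTop 0] with n hn
      have hn' : (0 : ℝ) < n := by exact_mod_cast hn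
      have := h n
      rw [div_le_iff₀ hn']
      have e1 : (C / c / n - 1 / c) * n = (C - n) / c := by field_simp
      rw [e1, le_div_iff₀ hc]
      linarith
    · exact isBoundedUnder_of ⟨-B, fun n => (abs_le.mp (hb n)).1⟩
    · exact h0.isCoboundedUnder_ge
  have : 0 < 1 / c := by positivity
  linarith

/-- Max wins if there is a suitable potential on a region. -/
theorem maxWins_of_potential {G : List Arc × List ℕ} (R : ℕ → Prop) (ψ : ℕ → ℤ)
    (hmax : ∀ i, R i → i ∈ G.2 → (∃ a ∈ G.1, a.1.1 = i) →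
      ∃ a ∈ G.1, a.1.1 = i ∧ R a.1.2 ∧ ψ i ≤ a.2 + ψ a.1.2)
    (hmin : ∀ i, R i → i ∉ G.2 → ∀ a ∈ G.1, a.1.1 = i → R a.1.2 ∧ ψ i ≤ a.2 + ψ a.1.2)
    {v : ℕ} (hv : R v) : MaxWins G v := by
  classical
  -- the chosen arcs
  set τ : ℕ → Arc := fun i =>
    if h : ∃ a ∈ G.1, a.1.1 = i ∧ R a.1.2 ∧ ψ i ≤ a.2 + ψ a.1.2 then h.choose
    else if h' : ∃ a ∈ G.1, a.1.1 = i then h'.choose else ((0, 0), 0) with hτ
  have hτ1 : ∀ i, (∃ a ∈ G.1, a.1.1 = i) → τ i ∈ G.1 ∧ (τ i).1.1 = i := by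
    intro i hi
    by_cases h : ∃ a ∈ G.1, a.1.1 = i ∧ R a.1.2 ∧ ψ i ≤ a.2 + ψ a.1.2
    · have e : τ i = h.choose := dif_pos h
      rw [e]
      exact ⟨h.choose_spec.1, h.choose_spec.2.1⟩
    · have e : τ i = hi.choose := by
        rw [hτ]; simp only
        rw [dif_neg h, dif_pos hi]
      rw [e]
      exact hi.choose_spec
  have hτ2 : ∀ i, R i → i ∈ G.2 → (∃ a ∈ G.1, a.1.1 = i) →
      R (τ i).1.2 ∧ ψ i ≤ (τ i).2 + ψ (τ i).1.2 := by
    intro i h1 h2 h3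
    have h := hmax i h1 h2 h3
    have e : τ i = h.choose := dif_pos h
    rw [e]
    exact h.choose_spec.2.2
  refine ⟨fun _ i => τ i, ⟨fun _ i _ hi => hτ1 i hi⟩, fun p hp hcons => ?_⟩
  have key : ∀ n, R (p n).1.1 ∧ R (p n).1.2 ∧ ψ (p n).1.1 ≤ (p n).2 + ψ (p n).1.2 := by
    intro n
    have step : ∀ n, R (p n).1.1 → R (p n).1.2 ∧ ψ (p n).1.1 ≤ (p n).2 + ψ (p n).1.2 := by
      intro n hn
      by_cases hm : (p n).1.1 ∈ G.2
      · have h1 : p n = τ (p n).1.1 := hcons n hm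
        have h2 := hτ2 _ hn hm ⟨p n, hp.arc n, rfl⟩
        rw [← h1] at h2
        exact h2
      · exact hmin _ hn hm (p n) (hp.arc n) rfl
    induction n with
    | zero =>
      have h0 : R (p 0).1.1 := by rw [hp.start]; exact hv
      exact ⟨h0, step 0 h0⟩
    | succ n ih =>
      have h0 : R (p (n + 1)).1.1 := by rw [hp.next]; exact ih.2.1
      exact ⟨h0, step _ h0⟩
  obtain ⟨C, hC, hb⟩ := exists_bound G.1 ψ
  refine payoff_nonneg (C := 2 * C) hp fun n => ?_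
  have hsum : ∀ n, ψ (p 0).1.1 - ψ (p n).1.1 ≤ ∑ k ∈ Finset.range n, (p k).2 := by
    intro n
    induction n with
    | zero => simp
    | succ n ih =>
      rw [Finset.sum_range_succ, hp.next]
      have := (key n).2.2
      linarith
  have h1 := (abs_le.mp (hb (p 0) (hp.arc 0)).1).1
  have h2 := (abs_le.mp (hb (p n) (hp.arc n)).1).2
  have h3 := hsum n
  have h4 : -(2 * C) ≤ ∑ k ∈ Finset.range n, (p k).2 := by linarith
  have h5 : ((-(2 * C) : ℤ) : ℝ) ≤ ((∑ k ∈ Finset.range n, (p k).2 : ℤ) : ℝ) := by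
    exact_mod_cast h4
  push_cast at h5
  exact h5

/-- Max does not win if Min has a suitable potential on a region. -/
theorem not_maxWins_of_potential {G : List Arc × List ℕ} (hG : IsGame G) (R : ℕ → Prop)
    (Φ : ℕ → ℤ) {c : ℤ} (hc : 0 < c)
    (hmin : ∀ i, R i → i ∉ G.2 → (∃ a ∈ G.1, a.1.1 = i) →
      ∃ a ∈ G.1, a.1.1 = i ∧ R a.1.2 ∧ c * a.2 + 1 + Φ a.1.2 ≤ Φ i)
    (hmax : ∀ i, R i → i ∈ G.2 → ∀ a ∈ G.1, a.1.1 = i → R a.1.2 ∧ c * a.2 + 1 + Φ a.1.2 ≤ Φ i)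
    {v : ℕ} (hv : R v) (hv' : ∃ a ∈ G.1, a.1.1 = v) : ¬ MaxWins G v := by
  classical
  rintro ⟨σ, hσ, hwin⟩
  -- Min's choice
  set μ : ℕ → Arc := fun i =>
    if h : ∃ a ∈ G.1, a.1.1 = i ∧ R a.1.2 ∧ c * a.2 + 1 + Φ a.1.2 ≤ Φ i then h.choose
    else ((0, 0), 0) with hμ
  have hμ1 : ∀ i, R i → i ∉ G.2 → (∃ a ∈ G.1, a.1.1 = i) →
      μ i ∈ G.1 ∧ (μ i).1.1 = i ∧ R (μ i).1.2 ∧ c * (μ i).2 + 1 + Φ (μ i).1.2 ≤ Φ i := by
    intro i h1 h2 h3
    have h := hmin i h1 h2 h3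
    have e : μ i = h.choose := dif_pos h
    rw [e]
    exact h.choose_spec
  -- the next arc after a history at a position
  set nx : List Arc × ℕ → Arc := fun s => if s.2 ∈ G.2 then σ s.1 s.2 else μ s.2 with hnx
  set st : ℕ → List Arc × ℕ := fun n => Nat.rec ([], v)
    (fun _ s => (s.1 ++ [nx s], (nx s).1.2)) n with hst
  have st0 : st 0 = ([], v) := rfl
  have stS : ∀ n, st (n + 1) = ((st n).1 ++ [nx (st n)], (nx (st n)).1.2) := fun n => rfl
  set p : ℕ → Arc := fun n => nx (st n) with hp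
  have hinv : ∀ n, R (st n).2 ∧ (∃ a ∈ G.1, a.1.1 = (st n).2) := by
    intro n
    have step : ∀ s : List Arc × ℕ, R s.2 → (∃ a ∈ G.1, a.1.1 = s.2) →
        R (nx s).1.2 ∧ nx s ∈ G.1 := by
      intro s h1 h2
      by_cases hm : s.2 ∈ G.2
      · have e : nx s = σ s.1 s.2 := if_pos hm
        rw [e]
        obtain ⟨h3, h4⟩ := hσ.legal s.1 s.2 hm h2
        exact ⟨(hmax _ h1 hm _ h3 h4).1, h3⟩
      · have e : nx s = μ s.2 := if_neg hm
        rw [e]
        have h3 := hμ1 _ h1 hm h2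
        exact ⟨h3.2.2.1, h3.1⟩
    induction n with
    | zero => rw [st0]; exact ⟨hv, hv'⟩
    | succ n ih =>
      rw [stS]
      obtain ⟨h1, h2⟩ := step _ ih.1 ih.2
      exact ⟨h1, hG.moves _ h2⟩
  have hp1 : ∀ n, p n ∈ G.1 ∧ (p n).1.1 = (st n).2 ∧
      c * (p n).2 + 1 + Φ (p n).1.2 ≤ Φ (p n).1.1 := by
    intro n
    obtain ⟨h1, h2⟩ := hinv n
    by_cases hm : (st n).2 ∈ G.2
    · have e : p n = σ (st n).1 (st n).2 := if_pos hm
      obtain ⟨h3, h4⟩ := hσ.legal (st n).1 (st n).2 hm h2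
      rw [e]
      exact ⟨h3, h4, by rw [h4]; exact (hmax _ h1 hm _ h3 h4).2⟩
    · have e : p n = μ (st n).2 := if_neg hm
      rw [e]
      have h3 := hμ1 _ h1 hm h2
      exact ⟨h3.1, h3.2.1, by rw [h3.2.1]; exact h3.2.2.2⟩
  have hplay : IsPlay G v p := by
    refine ⟨?_, fun n => (hp1 n).1, fun n => ?_⟩
    · rw [(hp1 0).2.1, st0]
    · rw [(hp1 (n + 1)).2.1, stS]
  have hhist : ∀ n, (st n).1 = (List.range n).map p := by
    intro n
    induction n with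
    | zero => rw [st0]; rfl
    | succ n ih =>
      rw [stS, List.range_succ, List.map_append, ← ih]
      rfl
  have hcons : ∀ n, (p n).1.1 ∈ G.2 → p n = σ ((List.range n).map p) (p n).1.1 := by
    intro n hm
    rw [(hp1 n).2.1] at hm ⊢
    rw [← hhist n]
    exact if_pos hm
  have hpos := hwin p hplay hcons
  obtain ⟨C, hC, hb⟩ := exists_bound G.1 Φ
  have hsum : ∀ n, c * ∑ k ∈ Finset.range n, (p k).2 + n ≤ Φ (p 0).1.1 - Φ (p n).1.1 := by
    intro n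
    induction n with
    | zero => simp
    | succ n ih =>
      rw [Finset.sum_range_succ, hplay.next]
      have := (hp1 n).2.2
      push_cast
      linarith
  have hneg : payoff p < 0 := by
    refine payoff_neg (C := 2 * C) (c := c) hplay (by exact_mod_cast hc) fun n => ?_
    have h1 := (abs_le.mp (hb (p 0) (hplay.arc 0)).1).2
    have h2 := (abs_le.mp (hb (p n) (hplay.arc n)).1).1
    have h3 := hsum n
    have h4 : c * ∑ k ∈ Finset.range n, (p k).2 + n ≤ 2 * C := by linarith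
    have h5 : ((c * ∑ k ∈ Finset.range n, (p k).2 + n : ℤ) : ℝ) ≤ ((2 * C : ℤ) : ℝ) := by
      exact_mod_cast h4
    push_cast at h5
    exact h5
  linarith

end Pool.Agent.Lib.MP_c29043_lc
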