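import Pool.Agent.Lib.MP_c29043_lc.Game

/-!
# From mean payoff games to covers: correctness

A cover of the digraph `gdig` of a game determines the winner at every position.
-/

set_option autoImplicit false

namespace Pool.Agent.Lib.MP_c29043_lc

/-- Pigeonhole: a gap of length `B` in the values of `Z`. -/
theorem exists_gap (V : Finset ℕ) (Z : ℕ → ℤ) {B : ℤ} (hB : 0 < B) :
    ∃ k : ℕ, k ≤ V.card ∧ ∀ i ∈ V, ¬ (k * B ≤ Z i ∧ Z i < (k + 1) * B) := by
  classical
  have h1 : (V.image fun i => (Z i / B).toNat).card < (Finset.range (V.card + 1)).card := by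
    rw [Finset.card_range]
    exact Nat.lt_succ_of_le Finset.card_image_le
  obtain ⟨k, hk1, hk2⟩ := Finset.exists_mem_notMem_of_card_lt_card h1
  refine ⟨k, by have := Finset.mem_range.mp hk1; omega, fun i hi hcon => hk2 ?_⟩
  refine Finset.mem_image.mpr ⟨i, hi, ?_⟩
  have h2 : Z i / B = k := by
    apply le_antisymm
    · have := Int.ediv_lt_of_lt_mul hB hcon.2
      omega
    · exact Int.le_ediv_of_mul_le hB hcon.1
  rw [h2]; simp

theorem exists_gap_neg (V : Finset ℕ) (Z : ℕ → ℤ) {B : ℤ} (hB : 0 < B) :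
    ∃ k : ℕ, k ≤ V.card ∧ ∀ i ∈ V, ¬ (-((k + 1) * B) ≤ Z i ∧ Z i < -(k * B)) := by
  obtain ⟨k, hk, h⟩ := exists_gap V (fun i => -Z i - 1) hB
  refine ⟨k, hk, fun i hi hcon => h i hi ?_⟩
  constructor
  · linarith [hcon.2]
  · linarith [hcon.1]

/-- A residue avoiding finitely many pairs of consecutive residues. -/
theorem exists_shift (V : Finset ℕ) (X : ℕ → ℤ) {K : ℕ} (hK : V.card < K) :
    ∃ s : ℤ, ∀ j ∈ V, (X j + s + 2) / (2 * K) = (X j + s) / (2 * K) := by
  classical
  have hK0 : (0 : ℤ) < 2 * K := by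
    have : 0 < K := by omega
    positivity
  set bad : Finset ℕ := V.biUnion fun j =>
    {((-X j - 1) % (2 * K)).toNat, ((-X j - 2) % (2 * K)).toNat} with hbad
  have hcard : bad.card ≤ V.card * 2 := by
    refine Finset.card_biUnion_le_card_mul _ _ _ fun j _ => Finset.card_le_two
  have h1 : bad.card < (Finset.range (2 * K)).card := by
    rw [Finset.card_range]; omega
  obtain ⟨s, hs1, hs2⟩ := Finset.exists_mem_notMem_of_card_lt_card h1
  refine ⟨s, fun j hj => ?_⟩
  have hs3 : (s : ℤ) < 2 * K := by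
    have := Finset.mem_range.mp hs1
    exact_mod_cast this
  have hs0 : (0 : ℤ) ≤ s := by positivity
  have hn : ∀ t : ℤ, (t = 1 ∨ t = 2) → (X j + s + t) % (2 * K) ≠ 0 := by
    intro t ht hcon
    apply hs2
    rw [hbad, Finset.mem_biUnion]
    refine ⟨j, hj, ?_⟩
    have h2 : (-X j - t) % (2 * K) = s := by
      have h3 : (2 * K : ℤ) ∣ (X j + s + t) := Int.dvd_of_emod_eq_zero hcon
      have h4 : (-X j - t) % (2 * K) = (s : ℤ) % (2 * K) := by
        apply Int.emod_emod_of_dvd _ (dvd_refl _) |>.symm.trans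
        rw [Int.emod_emod_of_dvd _ (dvd_refl _)]
        rw [Int.emod_eq_emod_iff_emod_sub_eq_zero]
        have h5 : -X j - t - s = -(X j + s + t) := by ring
        rw [h5]
        exact Int.emod_eq_zero_of_dvd ((dvd_neg).mpr h3)
      rw [h4]
      exact Int.emod_eq_of_lt hs0 hs3
    rcases ht with rfl | rfl
    · rw [Finset.mem_insert]; left
      rw [h2]; simp
    · rw [Finset.mem_insert]; right
      rw [Finset.mem_singleton, h2]; simp
  have e1 := hn 1 (Or.inl rfl)
  have e2 := hn 2 (Or.inr rfl)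
  set y := X j + (s : ℤ) with hy
  have h3 := Int.emod_add_mul_ediv y (2 * K)
  have h4 := Int.emod_nonneg y hK0.ne'
  have h5 := Int.emod_lt_of_pos y hK0
  set q := y / (2 * K) with hq
  set m := y % (2 * K) with hm
  -- m + 2 < 2 K
  have h6 : m + 2 < 2 * K := by
    by_contra hcon
    have h7 : m = 2 * K - 1 ∨ m = 2 * K - 2 := by omega
    rcases h7 with h7 | h7
    · apply e1
      have : y + 1 = (2 * K) * (q + 1) := by
        rw [← h3, h7]; ring
      rw [this]; exact Int.mul_emod_right _ _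
    · apply e2
      have : y + 2 = (2 * K) * (q + 1) := by
        rw [← h3, h7]; ring
      rw [this]; exact Int.mul_emod_right _ _
  have h8 : y + 2 = (m + 2) + (2 * K) * q := by rw [← h3]; ring
  rw [h8, Int.add_mul_ediv_left _ _ hK0.ne', Int.ediv_eq_zero_of_lt (by omega) h6]
  ring

/-- The abstract argument: `X`, `Y` are the shifted values of a cover. -/
theorem game_of_values {G : List Arc × List ℕ} (hG : IsGame G) (V : Finset ℕ)
    (hV : ∀ a ∈ G.1, a.1.1 ∈ V) {K : ℕ} (hK : V.card < K) {M B : ℤ} (hB : 0 < B)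
    (hBa : ∀ a ∈ G.1, |2 * (K * a.2 + 1)| ≤ B) (hM : (V.card + 1) * B < M)
    (X Y : ℕ → ℤ) (hYX : ∀ i ∈ V, Y i ≤ X i)
    (c1 : ∀ a ∈ G.1, a.1.1 ∈ G.2 → 2 * (K * a.2 + 1) + Y a.1.2 ≤ X a.1.1)
    (t1 : ∀ i ∈ V, i ∈ G.2 → -M < X i →
      ∃ a ∈ G.1, a.1.1 = i ∧ X i = 2 * (K * a.2 + 1) + Y a.1.2)
    (t1' : ∀ i ∈ V, i ∈ G.2 → Y i < M → X i = Y i)
    (c2 : ∀ a ∈ G.1, a.1.1 ∉ G.2 → Y a.1.1 ≤ 2 * (K * a.2 + 1) + X a.1.2)
    (t2 : ∀ i ∈ V, i ∉ G.2 → Y i < M →
      ∃ a ∈ G.1, a.1.1 = i ∧ Y i = 2 * (K * a.2 + 1) + X a.1.2)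
    (t2' : ∀ i ∈ V, i ∉ G.2 → -M < X i → X i = Y i)
    {v : ℕ} (hv : ∃ a ∈ G.1, a.1.1 = v) : 0 ≤ X v ↔ MaxWins G v := by
  classical
  have hV' : ∀ a ∈ G.1, a.1.2 ∈ V := by
    intro a ha
    obtain ⟨b, hb, hb'⟩ := hG.moves a ha
    rw [← hb']; exact hV b hb
  have hvV : v ∈ V := by
    obtain ⟨a, ha, rfl⟩ := hv
    exact hV a ha
  have hK0 : (0 : ℤ) < 2 * K := by
    have : 0 < K := by omega
    positivity
  have hMB : B < M := by nlinarith [(Nat.cast_nonneg V.card : (0 : ℤ) ≤ V.card)]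
  set Z : ℕ → ℤ := fun i => if i ∈ G.2 then Y i else X i with hZ
  have hZ1 : ∀ i, i ∈ G.2 → Z i = Y i := fun i hi => if_pos hi
  have hZ2 : ∀ i, i ∉ G.2 → Z i = X i := fun i hi => if_neg hi
  have hYZ : ∀ i ∈ V, Y i ≤ Z i := by
    intro i hi
    by_cases h : i ∈ G.2
    · rw [hZ1 i h]
    · rw [hZ2 i h]; exact hYX i hi
  have hZX : ∀ i ∈ V, Z i ≤ X i := by
    intro i hi
    by_cases h : i ∈ G.2
    · rw [hZ1 i h]; exact hYX i hi
    · rw [hZ2 i h]
  have hZmin : ∀ i ∈ V, ∀ t, t ≤ X i → t ≤ M → t ≤ Z i := by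
    intro i hi t h1 h2
    by_cases h : i ∈ G.2
    · rw [hZ1 i h]
      rcases lt_or_ge (Y i) M with h3 | h3
      · rw [← t1' i hi h h3]; exact h1
      · linarith
    · rw [hZ2 i h]; exact h1
  have hZmax : ∀ i ∈ V, ∀ t, Y i < t → -M < t → Z i < t := by
    intro i hi t h1 h2
    by_cases h : i ∈ G.2
    · rw [hZ1 i h]; exact h1
    · rw [hZ2 i h]
      rcases lt_or_ge (-M) (X i) with h3 | h3
      · rw [t2' i hi h h3]; exact h1
      · linarith
  constructor
  · intro hXv
    obtain ⟨k, hk, hgap⟩ := exists_gap_neg V Z hB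
    have hkB : (k : ℤ) * B ≤ V.card * B := by
      have : (k : ℤ) ≤ V.card := by exact_mod_cast hk
      nlinarith
    have hk0 : 0 ≤ (k : ℤ) * B := by positivity
    set τ : ℤ := -(k * B) with hτ
    have hτM : -M < τ - B := by
      rw [hτ]; linarith
    have hjump : ∀ i ∈ V, τ - B ≤ Z i → τ ≤ Z i := by
      intro i hi h
      by_contra hcon
      exact hgap i hi ⟨by linarith, by linarith⟩
    -- potential inequality on the region
    have hreg : ∀ i, (i ∈ V ∧ τ ≤ Z i) → i ∈ G.2 →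
        ∃ a ∈ G.1, a.1.1 = i ∧ (a.1.2 ∈ V ∧ τ ≤ Z a.1.2) ∧
          X i ≤ 2 * (K * a.2 + 1) + X a.1.2 := by
      rintro i ⟨hi, hiZ⟩ hm
      have h1 : τ ≤ X i := hiZ.trans (hZX i hi)
      obtain ⟨a, ha, hai, he⟩ := t1 i hi hm (by linarith)
      have h2 := (abs_le.mp (hBa a ha)).2
      have h3 : τ - B ≤ Y a.1.2 := by linarith
      refine ⟨a, ha, hai, ⟨hV' a ha, hjump _ (hV' a ha) (h3.trans (hYZ _ (hV' a ha)))⟩, ?_⟩
      rw [he]
      have := hYX _ (hV' a ha)
      linarith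
    have hreg' : ∀ i, (i ∈ V ∧ τ ≤ Z i) → i ∉ G.2 → ∀ a ∈ G.1, a.1.1 = i →
        (a.1.2 ∈ V ∧ τ ≤ Z a.1.2) ∧ X i ≤ 2 * (K * a.2 + 1) + X a.1.2 := by
      rintro i ⟨hi, hiZ⟩ hm a ha hai
      rw [hZ2 i hm] at hiZ
      have h0 : X i = Y i := t2' i hi hm (by linarith)
      have h1 := c2 a ha (by rw [hai]; exact hm)
      rw [hai, ← h0] at h1
      have h2 := (abs_le.mp (hBa a ha)).2
      have h3 : τ - B ≤ X a.1.2 := by linarith
      have h4 : τ - B ≤ Z a.1.2 := hZmin _ (hV' a ha) _ h3 (by linarith)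
      exact ⟨⟨hV' a ha, hjump _ (hV' a ha) h4⟩, h1⟩
    obtain ⟨s, hs⟩ := exists_shift V X hK
    have hconv : ∀ i, ∀ a ∈ G.1, X i ≤ 2 * (K * a.2 + 1) + X a.1.2 →
        (X i + s) / (2 * K) ≤ a.2 + (X a.1.2 + s) / (2 * K) := by
      intro i a ha h
      have h1 : X i + s ≤ (X a.1.2 + s + 2) + (2 * K) * a.2 := by linarith
      have h2 := Int.ediv_le_ediv hK0 h1
      rw [Int.add_mul_ediv_left _ _ hK0.ne', hs _ (hV' a ha)] at h2
      linarith
    refine maxWins_of_potential (fun i => i ∈ V ∧ τ ≤ Z i) (fun i => (X i + s) / (2 * K))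
      ?_ ?_ (v := v) ?_
    · intro i hi hm _
      obtain ⟨a, ha, hai, hr, hx⟩ := hreg i hi hm
      exact ⟨a, ha, hai, hr, hconv i a ha hx⟩
    · intro i hi hm a ha hai
      obtain ⟨hr, hx⟩ := hreg' i hi hm a ha hai
      exact ⟨hr, hconv i a ha hx⟩
    · refine ⟨hvV, ?_⟩
      have : 0 ≤ Z v := hZmin v hvV 0 hXv (by linarith)
      linarith
  · intro hwin
    by_contra hXv
    rw [not_le] at hXv
    obtain ⟨k, hk, hgap⟩ := exists_gap V Z hB
    have hkB : (k : ℤ) * B ≤ V.card * B := by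
      have : (k : ℤ) ≤ V.card := by exact_mod_cast hk
      nlinarith
    have hk0 : 0 ≤ (k : ℤ) * B := by positivity
    set τ : ℤ := k * B with hτ
    have hτM : τ + B < M := by
      rw [hτ]; linarith
    have hjump : ∀ i ∈ V, Z i < τ + B → Z i < τ := by
      intro i hi h
      by_contra hcon
      exact hgap i hi ⟨by linarith, by linarith⟩
    refine not_maxWins_of_potential hG (fun i => i ∈ V ∧ Z i < τ) Y hK0 ?_ ?_ (v := v) ?_ hv hwin
    · rintro i ⟨hi, hiZ⟩ hm _
      have h1 : Y i < τ := lt_of_le_of_lt (hYZ i hi) hiZ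
      obtain ⟨a, ha, hai, he⟩ := t2 i hi hm (by linarith)
      have h2 := (abs_le.mp (hBa a ha)).1
      have h3 : X a.1.2 < τ + B := by linarith
      refine ⟨a, ha, hai, ⟨hV' a ha, hjump _ (hV' a ha)
        (lt_of_le_of_lt (hZX _ (hV' a ha)) h3)⟩, ?_⟩
      have := hYX _ (hV' a ha)
      rw [he]
      linarith
    · rintro i ⟨hi, hiZ⟩ hm a ha hai
      rw [hZ1 i hm] at hiZ
      have h0 : X i = Y i := t1' i hi hm (by linarith)
      have h1 := c1 a ha (by rw [hai]; exact hm)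
      rw [hai, h0] at h1
      have h2 := (abs_le.mp (hBa a ha)).1
      have h3 : Y a.1.2 < τ + B := by linarith
      have h4 : Z a.1.2 < τ + B := hZmax _ (hV' a ha) _ h3 (by linarith)
      exact ⟨⟨hV' a ha, hjump _ (hV' a ha) h4⟩, by linarith⟩
    · exact ⟨hvV, lt_of_le_of_lt (hZX v hvV) (by linarith)⟩

/-- weight of the arc for a move of Max -/
def wMax (K M : ℕ) (c : ℤ) : ℕ := 2 * ((M + K * c.toNat + 1) - K * (-c).toNat)

/-- weight of the arc for a move of Min -/
def wMin (K M : ℕ) (c : ℤ) : ℕ := 2 * ((M + K * (-c).toNat) - (K * c.toNat + 1))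

/-- arc for a move -/
def mvArc (K M : ℕ) (m : List ℕ) (a : Arc) : (ℕ × ℕ) × ℕ :=
  if a.1.1 ∈ m then ((2 * a.1.2 + 1, 2 * a.1.1), wMax K M a.2)
  else ((2 * a.1.2, 2 * a.1.1 + 1), wMin K M a.2)

/-- arc for a position -/
def posArc (M : ℕ) (m : List ℕ) (i : ℕ) : (ℕ × ℕ) × ℕ :=
  if i ∈ m then ((2 * i, 2 * i + 1), 2 * M) else ((2 * i + 1, 2 * i), 2 * M)

/-- the digraph of a game -/
def gdig (K M : ℕ) (V : List ℕ) (G : List Arc × List ℕ) : List ((ℕ × ℕ) × ℕ) :=
  G.1.map (mvArc K M G.2) ++ V.map (posArc M G.2)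

theorem wMax_cast {K M : ℕ} {c : ℤ} (h : K * (-c).toNat ≤ M) :
    ((wMax K M c : ℕ) : ℤ) = 2 * (M + (K * c + 1)) := by
  have h1 : (c : ℤ) = c.toNat - (-c).toNat := by omega
  rw [wMax]
  push_cast [Nat.cast_sub (show K * (-c).toNat ≤ M + K * c.toNat + 1 by omega)]
  have h2 : (K : ℤ) * c = K * (c.toNat - (-c).toNat) := by rw [← h1]
  rw [h2]
  ring

theorem wMin_cast {K M : ℕ} {c : ℤ} (h : K * c.toNat + 1 ≤ M) :
    ((wMin K M c : ℕ) : ℤ) = 2 * (M - (K * c + 1)) := by
  have h1 : (c : ℤ) = c.toNat - (-c).toNat := by omega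
  rw [wMin]
  push_cast [Nat.cast_sub (show K * c.toNat + 1 ≤ M + K * (-c).toNat by omega)]
  have h2 : (K : ℤ) * c = K * (c.toNat - (-c).toNat) := by rw [← h1]
  rw [h2]
  ring

theorem mvArc_max {K M : ℕ} {m : List ℕ} {a : Arc} (h : a.1.1 ∈ m) :
    mvArc K M m a = ((2 * a.1.2 + 1, 2 * a.1.1), wMax K M a.2) := if_pos h

theorem mvArc_min {K M : ℕ} {m : List ℕ} {a : Arc} (h : a.1.1 ∉ m) :
    mvArc K M m a = ((2 * a.1.2, 2 * a.1.1 + 1), wMin K M a.2) := if_neg h

theorem posArc_max {M : ℕ} {m : List ℕ} {i : ℕ} (h : i ∈ m) :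
    posArc M m i = ((2 * i, 2 * i + 1), 2 * M) := if_pos h

theorem posArc_min {M : ℕ} {m : List ℕ} {i : ℕ} (h : i ∉ m) :
    posArc M m i = ((2 * i + 1, 2 * i), 2 * M) := if_neg h

/-- Correctness of the reduction from games to covers. -/
theorem gdig_correct {G : List Arc × List ℕ} (hG : IsGame G) {V : List ℕ} (hV : V.Nodup)
    (hVG : ∀ i, i ∈ V ↔ ∃ a ∈ G.1, a.1.1 = i) {K M B : ℕ} (hK : V.length < K)
    (hB : ∀ a ∈ G.1, 2 * (K * (a.2.toNat + (-a.2).toNat) + 1) ≤ B) (hB0 : 0 < B)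
    (hM : (V.length + 1) * B < M) {x : ℕ → ℕ} (hx : IsCover (gdig K M V G) x) {v : ℕ}
    (hv : v ∈ V) : M ≤ x (2 * v) ↔ MaxWins G v := by
  classical
  have hcard : V.toFinset.card = V.length := List.toFinset_card_of_nodup hV
  have hMB : B < M := by nlinarith
  have hwM : ∀ a ∈ G.1, ((wMax K M a.2 : ℕ) : ℤ) = 2 * (M + (K * a.2 + 1)) := by
    intro a ha
    have h1 := hB a ha
    apply wMax_cast
    nlinarith [Nat.zero_le (K * a.2.toNat)]
  have hwm : ∀ a ∈ G.1, ((wMin K M a.2 : ℕ) : ℤ) = 2 * (M - (K * a.2 + 1)) := by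
    intro a ha
    have h1 := hB a ha
    apply wMin_cast
    nlinarith [Nat.zero_le (K * (-a.2).toNat)]
  set X : ℕ → ℤ := fun i => (x (2 * i) : ℤ) - M with hX
  set Y : ℕ → ℤ := fun i => (M : ℤ) - x (2 * i + 1) with hY
  have hmem1 : ∀ a ∈ G.1, mvArc K M G.2 a ∈ gdig K M V G := by
    intro a ha
    exact List.mem_append_left _ (List.mem_map_of_mem ha)
  have hmem2 : ∀ i ∈ V, posArc M G.2 i ∈ gdig K M V G := by
    intro i hi
    exact List.mem_append_right _ (List.mem_map_of_mem hi)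
  have key := game_of_values hG V.toFinset (fun a ha => by
      rw [List.mem_toFinset, hVG]; exact ⟨a, ha, rfl⟩) (K := K) (by rw [hcard]; exact hK)
    (M := M) (B := B) (by exact_mod_cast hB0) (fun a ha => ?_) ?_ X Y (fun i hi => ?_)
    (fun a ha hm => ?_) (fun i hi hm h => ?_) (fun i hi hm h => ?_)
    (fun a ha hm => ?_) (fun i hi hm h => ?_) (fun i hi hm h => ?_) (v := v) ((hVG v).mp hv)
  · rw [← key]
    simp only [hX]
    omega
  · -- bound
    have h1 := hB a ha
    have h2 : (2 * (K * ((a.2.toNat : ℤ) + (-a.2).toNat) + 1)) ≤ (B : ℤ) := by exact_mod_cast h1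
    have h3 : |a.2| = (a.2.toNat : ℤ) + (-a.2).toNat := by
      rcases abs_cases a.2 with ⟨h, _⟩ | ⟨h, _⟩ <;> rw [h] <;> omega
    rw [← h3] at h2
    have h4 : |2 * ((K : ℤ) * a.2 + 1)| ≤ 2 * (K * |a.2| + 1) := by
      rw [abs_mul, abs_two]
      have h5 : |(K : ℤ) * a.2 + 1| ≤ |(K : ℤ) * a.2| + |1| := abs_add_le _ _
      rw [abs_mul, abs_one, abs_of_nonneg (Int.natCast_nonneg K)] at h5
      linarith
    exact h4.trans h2
  · rw [hcard]
    exact_mod_cast hM
  · -- Y ≤ X
    rw [List.mem_toFinset] at hi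
    have h1 := hx.cover _ (hmem2 i hi)
    simp only [hX, hY]
    by_cases hm : i ∈ G.2
    · rw [posArc_max hm] at h1
      simp only at h1
      omega
    · rw [posArc_min hm] at h1
      simp only at h1
      omega
  · -- c1
    have h1 := hx.cover _ (hmem1 a ha)
    rw [mvArc_max hm] at h1
    simp only at h1
    have h2 := hwM a ha
    simp only [hX, hY]
    have h3 : ((wMax K M a.2 : ℕ) : ℤ) ≤ x (2 * a.1.2 + 1) + x (2 * a.1.1) := by exact_mod_cast h1
    rw [h2] at h3
    linarith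
  · -- t1
    have h0 : 0 < x (2 * i) := by
      simp only [hX] at h
      have : (0 : ℤ) < x (2 * i) := by linarith
      exact_mod_cast this
    obtain ⟨b, hb, hb1, hb2⟩ := hx.tight _ h0
    rcases List.mem_append.mp hb with hb | hb
    · obtain ⟨a, ha, rfl⟩ := List.mem_map.mp hb
      by_cases hma : a.1.1 ∈ G.2
      · rw [mvArc_max hma] at hb1 hb2
        simp only at hb1 hb2
        have hai : a.1.1 = i := by omega
        refine ⟨a, ha, hai, ?_⟩
        have h2 := hwM a ha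
        have h3 : ((x (2 * a.1.2 + 1) : ℤ)) + x (2 * i) = ((wMax K M a.2 : ℕ) : ℤ) := by
          exact_mod_cast hb2
        rw [h2] at h3
        simp only [hX, hY]
        linarith
      · rw [mvArc_min hma] at hb1
        simp only at hb1
        omega
    · obtain ⟨j, hj, rfl⟩ := List.mem_map.mp hb
      by_cases hmj : j ∈ G.2
      · rw [posArc_max hmj] at hb1
        simp only at hb1
        omega
      · rw [posArc_min hmj] at hb1
        simp only at hb1
        have : j = i := by omega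
        exact absurd (this ▸ hm) hmj
  · -- t1'
    have h0 : 0 < x (2 * i + 1) := by
      simp only [hY] at h
      have : (0 : ℤ) < x (2 * i + 1) := by linarith
      exact_mod_cast this
    obtain ⟨b, hb, hb1, hb2⟩ := hx.tight _ h0
    rcases List.mem_append.mp hb with hb | hb
    · obtain ⟨a, ha, rfl⟩ := List.mem_map.mp hb
      by_cases hma : a.1.1 ∈ G.2
      · rw [mvArc_max hma] at hb1
        simp only at hb1
        omega
      · rw [mvArc_min hma] at hb1
        simp only at hb1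
        have : a.1.1 = i := by omega
        exact absurd (this ▸ hm) hma
    · obtain ⟨j, hj, rfl⟩ := List.mem_map.mp hb
      by_cases hmj : j ∈ G.2
      · rw [posArc_max hmj] at hb1 hb2
        simp only at hb1 hb2
        have : j = i := by omega
        subst this
        have h3 : ((x (2 * j) : ℤ)) + x (2 * j + 1) = 2 * M := by exact_mod_cast hb2
        simp only [hX, hY]
        linarith
      · rw [posArc_min hmj] at hb1
        simp only at hb1
        omega
  · -- c2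
    have h1 := hx.cover _ (hmem1 a ha)
    rw [mvArc_min hm] at h1
    simp only at h1
    have h2 := hwm a ha
    simp only [hX, hY]
    have h3 : ((wMin K M a.2 : ℕ) : ℤ) ≤ x (2 * a.1.2) + x (2 * a.1.1 + 1) := by exact_mod_cast h1
    rw [h2] at h3
    linarith
  · -- t2
    have h0 : 0 < x (2 * i + 1) := by
      simp only [hY] at h
      have : (0 : ℤ) < x (2 * i + 1) := by linarith
      exact_mod_cast this
    obtain ⟨b, hb, hb1, hb2⟩ := hx.tight _ h0
    rcases List.mem_append.mp hb with hb | hb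
    · obtain ⟨a, ha, rfl⟩ := List.mem_map.mp hb
      by_cases hma : a.1.1 ∈ G.2
      · rw [mvArc_max hma] at hb1
        simp only at hb1
        omega
      · rw [mvArc_min hma] at hb1 hb2
        simp only at hb1 hb2
        have hai : a.1.1 = i := by omega
        refine ⟨a, ha, hai, ?_⟩
        have h2 := hwm a ha
        have h3 : ((x (2 * a.1.2) : ℤ)) + x (2 * i + 1) = ((wMin K M a.2 : ℕ) : ℤ) := by
          exact_mod_cast hb2
        rw [h2] at h3
        simp only [hX, hY]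
        linarith
    · obtain ⟨j, hj, rfl⟩ := List.mem_map.mp hb
      by_cases hmj : j ∈ G.2
      · rw [posArc_max hmj] at hb1
        simp only at hb1
        have : j = i := by omega
        exact absurd (this ▸ hmj) hm
      · rw [posArc_min hmj] at hb1
        simp only at hb1
        omega
  · -- t2'
    have h0 : 0 < x (2 * i) := by
      simp only [hX] at h
      have : (0 : ℤ) < x (2 * i) := by linarith
      exact_mod_cast this
    obtain ⟨b, hb, hb1, hb2⟩ := hx.tight _ h0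
    rcases List.mem_append.mp hb with hb | hb
    · obtain ⟨a, ha, rfl⟩ := List.mem_map.mp hb
      by_cases hma : a.1.1 ∈ G.2
      · rw [mvArc_max hma] at hb1
        simp only at hb1
        have : a.1.1 = i := by omega
        exact absurd (this ▸ hma) hm
      · rw [mvArc_min hma] at hb1
        simp only at hb1
        omega
    · obtain ⟨j, hj, rfl⟩ := List.mem_map.mp hb
      by_cases hmj : j ∈ G.2
      · rw [posArc_max hmj] at hb1
        simp only at hb1
        omega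
      · rw [posArc_min hmj] at hb1 hb2
        simp only at hb1 hb2
        have : j = i := by omega
        subst this
        have h3 : ((x (2 * j + 1) : ℤ)) + x (2 * j) = 2 * M := by exact_mod_cast hb2
        simp only [hX, hY]
        linarith

end Pool.Agent.Lib.MP_c29043_lc
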