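import Pool.Agent.Lib.MP_c29043_lc.Chain
import Pool.Agent.Lib.MP_c29043_lc.Hard

/-!
# Mean payoff games from an algorithm for covers
-/

set_option autoImplicit false

open N68a2faeb N487b59b3 Pool.Agent.Lib.PolyTime

namespace Pool.Agent.Lib.MP_c29043_lc

variable {α : Type} [N487b59b3 α]

/-- the positions of a game -/
def poss (G : List Arc × List ℕ) : List ℕ := nub (G.1.map fun a => a.1.1)

theorem poss_nodup (G : List Arc × List ℕ) : (poss G).Nodup := nub_nodup _

@[fun_prop]
theorem pt_poss {G : α → List Arc × List ℕ} (hG : IsPolyTime G) :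
    IsPolyTime (fun a => poss (G a)) := by
  unfold poss
  fun_prop

/-- a bound for the payoffs -/
def cmax (G : List Arc × List ℕ) : ℕ := lmax (G.1.map fun a => a.2.toNat + (-a.2).toNat)

@[fun_prop]
theorem pt_cmax {G : α → List Arc × List ℕ} (hG : IsPolyTime G) :
    IsPolyTime (fun a => cmax (G a)) := by
  unfold cmax
  fun_prop

/-- the shift -/
def shM (G : List Arc × List ℕ) : ℕ := dbl (poss G) (2 * (2 * (dbl (poss G) (cmax G) + 1)))

@[fun_prop]
theorem pt_shM {G : α → List Arc × List ℕ} (hG : IsPolyTime G) :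
    IsPolyTime (fun a => shM (G a)) := by
  unfold shM
  fun_prop

/-- the digraph of a game -/
def gd (G : List Arc × List ℕ) : List ((ℕ × ℕ) × ℕ) :=
  (G.1.map fun a => if a.1.1 ∈ G.2 then
      ((2 * a.1.2 + 1, 2 * a.1.1),
        2 * ((shM G + dbl (poss G) a.2.toNat + 1) - dbl (poss G) (-a.2).toNat))
    else ((2 * a.1.2, 2 * a.1.1 + 1),
        2 * ((shM G + dbl (poss G) (-a.2).toNat) - (dbl (poss G) a.2.toNat + 1)))) ++
  (poss G).map fun i => if i ∈ G.2 then ((2 * i, 2 * i + 1), 2 * shM G)
    else ((2 * i + 1, 2 * i), 2 * shM G)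

theorem gd_eq (G : List Arc × List ℕ) :
    gd G = gdig (2 ^ (poss G).length) (shM G) (poss G) G := by
  unfold gd gdig mvArc posArc wMax wMin
  simp only [dbl_eq]

@[fun_prop]
theorem pt_gd {G : α → List Arc × List ℕ} (hG : IsPolyTime G) : IsPolyTime (fun a => gd (G a)) := by
  unfold gd
  refine pt_append ?_ ?_
  · refine pt_map (by fun_prop) (pt_ite (pt_mem (by fun_prop) (by fun_prop)) ?_ ?_) <;> fun_prop
  · refine pt_map (by fun_prop) (pt_ite (pt_mem (by fun_prop) (by fun_prop)) ?_ ?_) <;> fun_prop

theorem mem_poss {G : List Arc × List ℕ} {i : ℕ} : i ∈ poss G ↔ ∃ a ∈ G.1, a.1.1 = i := by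
  unfold poss
  rw [mem_nub, List.mem_map]

theorem gd_correct {G : List Arc × List ℕ} (hG : IsGame G) {x : ℕ → ℕ} (hx : IsCover (gd G) x)
    {v : ℕ} (hv : ∃ a ∈ G.1, a.1.1 = v) : shM G ≤ x (2 * v) ↔ MaxWins G v := by
  rw [gd_eq] at hx
  refine gdig_correct (V := poss G) (K := 2 ^ (poss G).length) hG (poss_nodup G)
    (fun i => mem_poss) (B := 2 * (dbl (poss G) (cmax G) + 1))
    Nat.lt_two_pow_self ?_ (by omega) ?_ hx (mem_poss.mpr hv)
  · intro a ha
    rw [dbl_eq]
    have h1 : a.2.toNat + (-a.2).toNat ≤ cmax G := le_lmax (List.mem_map.mpr ⟨a, ha, rfl⟩)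
    have h2 := Nat.mul_le_mul_left (2 ^ (poss G).length) h1
    omega
  · have h3 : shM G = 2 ^ (poss G).length * (2 * (2 * (dbl (poss G) (cmax G) + 1))) := dbl_eq _ _
    rw [h3]
    have h4 : (poss G).length + 1 ≤ 2 ^ (poss G).length := Nat.lt_two_pow_self
    have h5 := Nat.mul_le_mul_right (2 * (2 * (dbl (poss G) (cmax G) + 1))) h4
    refine lt_of_lt_of_le ?_ h5
    nlinarith [Nat.zero_le ((poss G).length * (2 * (dbl (poss G) (cmax G) + 1)))]

theorem bipartite_gd (G : List Arc × List ℕ) : Bipartite (gd G) := by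
  refine ⟨fun z => decide (z % 2 = 0), fun f hf => ?_⟩
  unfold gd at hf
  rw [List.mem_append, List.mem_map, List.mem_map] at hf
  rcases hf with ⟨a, _, rfl⟩ | ⟨i, _, rfl⟩
  · split_ifs
    · have h1 : (2 * a.1.2 + 1) % 2 = 1 := by omega
      have h2 : (2 * a.1.1) % 2 = 0 := by omega
      simp [h1, h2]
    · have h1 : (2 * a.1.2) % 2 = 0 := by omega
      have h2 : (2 * a.1.1 + 1) % 2 = 1 := by omega
      simp [h1, h2]
  · split_ifs
    · have h1 : (2 * i + 1) % 2 = 1 := by omega
      have h2 : (2 * i) % 2 = 0 := by omega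
      simp [h1, h2]
    · have h1 : (2 * i) % 2 = 0 := by omega
      have h2 : (2 * i + 1) % 2 = 1 := by omega
      simp [h1, h2]

/-- A loop at a position of a game becomes an arc parallel (and opposite) to the arc of the
position, so no two arcs of `gd G` have the same end points in the same order. -/
theorem isWDigraph_gd {G : List Arc × List ℕ} (hG : IsGame G) : IsWDigraph (gd G) := by
  refine ⟨?_, ?_⟩
  · unfold gd
    rw [List.map_append, List.map_map, List.map_map, List.nodup_append']
    have hn : G.1.Nodup := List.Nodup.of_map _ hG.nodup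
    have hinj : ∀ a ∈ G.1, ∀ b ∈ G.1, a.1 = b.1 → a = b := by
      intro a ha b hb h
      exact List.inj_on_of_nodup_map hG.nodup ha hb h
    refine ⟨?_, ?_, ?_⟩
    · rw [List.nodup_map_iff_inj_on hn]
      intro a ha b hb h
      apply hinj a ha b hb
      simp only [Function.comp] at h
      split_ifs at h with h1 h2 h2 <;> simp only [Prod.mk.injEq] at h
      · ext <;> omega
      · omega
      · omega
      · ext <;> omega
    · rw [List.nodup_map_iff_inj_on (poss_nodup G)]
      intro a ha b hb h
      simp only [Function.comp] at h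
      split_ifs at h with h1 h2 h2 <;> simp only [Prod.mk.injEq] at h <;> omega
    · intro c h1 h2
      rw [List.mem_map] at h1 h2
      obtain ⟨a, ha, rfl⟩ := h1
      obtain ⟨i, hi, h⟩ := h2
      simp only [Function.comp] at h
      by_cases h3 : i ∈ G.2 <;> by_cases h4 : a.1.1 ∈ G.2 <;>
        simp only [h3, h4, if_true, if_false, Prod.mk.injEq] at h
      · omega
      · obtain rfl : i = a.1.1 := by omega
        exact h4 h3
      · obtain rfl : i = a.1.1 := by omega
        exact h3 h4
      · omega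
  · intro f hf
    unfold gd at hf
    rw [List.mem_append, List.mem_map, List.mem_map] at hf
    rcases hf with ⟨a, _, rfl⟩ | ⟨i, _, rfl⟩
    · split_ifs <;> exact even_two_mul _
    · split_ifs <;> exact even_two_mul _

/-- If covers of simple bipartite digraphs with in-degrees at most two can be computed in polynomial
time, then mean payoff games are in `P`. -/
theorem games_of_covers
    (h : CoversInP fun A => (A.map Prod.fst).Nodup ∧ Bipartite A ∧ InDegLeTwo A) : GamesInP := by
  obtain ⟨f, hf, hc⟩ := h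
  refine ⟨fun p => decide (shM p.1 ≤ vec (f (chain (gd p.1))) (chP (2 * p.2) (gd p.1).length)),
    ?_, fun G v hG hv => ?_⟩
  · have h1 : IsPolyTime (fun p : (List Arc × List ℕ) × ℕ => chain (gd p.1)) :=
      pt_chain (by fun_prop)
    have h2 : IsPolyTime (fun p : (List Arc × List ℕ) × ℕ => f (chain (gd p.1))) := pt_comp hf h1
    have h3 : IsPolyTime (fun p : (List Arc × List ℕ) × ℕ => chP (2 * p.2) (gd p.1).length) :=
      pt_chP (by fun_prop) (by fun_prop)
    exact pt_le (by fun_prop) (pt_vec h2 h3)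
  · have hA := isWDigraph_gd hG
    have h1 : IsCover (chain (gd G)) (vec (f (chain (gd G)))) :=
      hc _ (isWDigraph_chain hA).even
        ⟨nodup_keys _, bipartite_chain (bipartite_gd G), inDeg_chain _⟩
    rw [decide_eq_true_iff]
    exact gd_correct hG (chain_correct h1) hv

end Pool.Agent.Lib.MP_c29043_lc
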