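import Pool.Agent.Lib.MP_c29043_lc.Fix
import Pool.Agent.Lib.MP_c29043_lc.Game

/-!
# The coordinates of the least fixed point are decided by mean payoff games
-/

set_option autoImplicit false

namespace Pool.Agent.Lib.MP_c29043_lc

/-- Max, at the node `v`, picks an entering arc. -/
def qMax (K : ℕ) (e : (ℕ × ℕ) × ℕ) : Arc :=
  ((2 * e.1.2 + 2, 2 * e.1.1 + 3), ((K * e.2 : ℕ) : ℤ))

/-- Min, at the node `v`, picks an entering arc. -/
def qMin (K : ℕ) (e : (ℕ × ℕ) × ℕ) : Arc :=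
  ((2 * e.1.2 + 3, 2 * e.1.1 + 2), -((K * e.2 + 1 : ℕ) : ℤ))

/-- Max stops at the node `v`. -/
def sMax (K : ℕ) (a : ℕ → ℕ) (v : ℕ) : Arc := ((2 * v + 2, 0), ((K * a v : ℕ) : ℤ))

/-- Min stops at the node `v`. -/
def sMin (v : ℕ) : Arc := ((2 * v + 3, 0), ((0 : ℕ) : ℤ))

/-- the move from the root -/
def rootArc (K v0 s : ℕ) : Arc := ((0, 2 * v0 + 2), -((K * s + 1 : ℕ) : ℤ))

/-- the game that decides whether the least fixed point is larger than `s` at `v0` -/
def qgame (K : ℕ) (A : List ((ℕ × ℕ) × ℕ)) (V : List ℕ) (a : ℕ → ℕ) (v0 s : ℕ) :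
    List Arc × List ℕ :=
  (rootArc K v0 s :: (A.map (qMax K) ++ A.map (qMin K) ++ V.map (sMax K a) ++ V.map sMin),
    0 :: V.map fun v => 2 * v + 2)

theorem mem_qgame {K : ℕ} {A : List ((ℕ × ℕ) × ℕ)} {V : List ℕ} {a : ℕ → ℕ} {v0 s : ℕ} {c : Arc} :
    c ∈ (qgame K A V a v0 s).1 ↔ c = rootArc K v0 s ∨ (∃ e ∈ A, qMax K e = c) ∨
      (∃ e ∈ A, qMin K e = c) ∨ (∃ v ∈ V, sMax K a v = c) ∨ (∃ v ∈ V, sMin v = c) := by
  simp only [qgame, List.mem_cons, List.mem_append, List.mem_map, or_assoc]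

theorem mem_qgame_max {K : ℕ} {A : List ((ℕ × ℕ) × ℕ)} {V : List ℕ} {a : ℕ → ℕ} {v0 s i : ℕ} :
    i ∈ (qgame K A V a v0 s).2 ↔ i = 0 ∨ ∃ v ∈ V, 2 * v + 2 = i := by
  simp only [qgame, List.mem_cons, List.mem_map]

/-- the query game is a game -/
theorem isGame_qgame {K : ℕ} {A : List ((ℕ × ℕ) × ℕ)} {V : List ℕ} {a : ℕ → ℕ} {v0 s : ℕ}
    (hA : (A.map Prod.fst).Nodup) (hV : V.Nodup) (hAV : ∀ e ∈ A, e.1.1 ∈ V ∧ e.1.2 ∈ V)
    (hv0 : v0 ∈ V) : IsGame (qgame K A V a v0 s) := by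
  refine ⟨?_, ?_⟩
  · have e : (qgame K A V a v0 s).1.map Prod.fst =
        (0, 2 * v0 + 2) :: (((A.map Prod.fst).map fun p => (2 * p.2 + 2, 2 * p.1 + 3)) ++
          ((A.map Prod.fst).map fun p => (2 * p.2 + 3, 2 * p.1 + 2)) ++
          V.map (fun v => (2 * v + 2, 0)) ++ V.map (fun v => (2 * v + 3, 0))) := by
      simp only [qgame, List.map_cons, List.map_append, List.map_map]
      rfl
    rw [e, List.nodup_cons]
    refine ⟨?_, ?_⟩
    · simp only [List.mem_append, List.mem_map, Prod.mk.injEq]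
      rintro (((⟨p, -, h, -⟩ | ⟨p, -, h, -⟩) | ⟨p, -, h, -⟩) | ⟨p, -, h, -⟩) <;> omega
    · rw [List.nodup_append', List.nodup_append', List.nodup_append']
      refine ⟨⟨⟨?_, ?_, ?_⟩, ?_, ?_⟩, ?_, ?_⟩
      · refine hA.map ?_
        rintro ⟨p1, p2⟩ ⟨q1, q2⟩ h
        simp only [Prod.mk.injEq] at h ⊢
        omega
      · refine hA.map ?_
        rintro ⟨p1, p2⟩ ⟨q1, q2⟩ h
        simp only [Prod.mk.injEq] at h ⊢
        omega
      · intro c h1 h2
        simp only [List.mem_map] at h1 h2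
        obtain ⟨p, -, rfl⟩ := h1
        obtain ⟨q, -, h⟩ := h2
        simp only [Prod.mk.injEq] at h
        omega
      · refine hV.map ?_
        intro p q h
        simp only [Prod.mk.injEq] at h
        omega
      · intro c h1 h2
        simp only [List.mem_map, List.mem_append] at h1 h2
        obtain ⟨q, -, rfl⟩ := h2
        rcases h1 with ⟨p, -, h⟩ | ⟨p, -, h⟩ <;> simp only [Prod.mk.injEq] at h <;> omega
      · refine hV.map ?_
        intro p q h
        simp only [Prod.mk.injEq] at h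
        omega
      · intro c h1 h2
        simp only [List.mem_map, List.mem_append] at h1 h2
        obtain ⟨q, -, rfl⟩ := h2
        rcases h1 with (⟨p, -, h⟩ | ⟨p, -, h⟩) | ⟨p, -, h⟩ <;> simp only [Prod.mk.injEq] at h <;>
          omega
  · have h0 : ∃ b ∈ (qgame K A V a v0 s).1, b.1.1 = 0 :=
      ⟨rootArc K v0 s, mem_qgame.mpr (Or.inl rfl), rfl⟩
    have h1 : ∀ v ∈ V, ∃ b ∈ (qgame K A V a v0 s).1, b.1.1 = 2 * v + 2 := fun v hv =>
      ⟨sMax K a v, mem_qgame.mpr (Or.inr (Or.inr (Or.inr (Or.inl ⟨v, hv, rfl⟩)))), rfl⟩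
    have h2 : ∀ v ∈ V, ∃ b ∈ (qgame K A V a v0 s).1, b.1.1 = 2 * v + 3 := fun v hv =>
      ⟨sMin v, mem_qgame.mpr (Or.inr (Or.inr (Or.inr (Or.inr ⟨v, hv, rfl⟩)))), rfl⟩
    intro c hc
    rw [mem_qgame] at hc
    rcases hc with rfl | ⟨e, he, rfl⟩ | ⟨e, he, rfl⟩ | ⟨v, hv, rfl⟩ | ⟨v, hv, rfl⟩
    · exact h1 v0 hv0
    · exact h2 _ (hAV e he).1
    · exact h1 _ (hAV e he).1
    · exact h0
    · exact h0

section

variable {K : ℕ} {A : List ((ℕ × ℕ) × ℕ)} {V : List ℕ} {a l : ℕ → ℕ} {v0 s : ℕ}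

/-- potential with prescribed values at the positions of Max and of Min -/
def pot (f g : ℕ → ℤ) (i : ℕ) : ℤ :=
  if i = 0 then 0 else if i % 2 = 0 then f (i / 2 - 1) else g (i / 2 - 1)

theorem pot_zero (f g : ℕ → ℤ) : pot f g 0 = 0 := rfl

theorem pot_max (f g : ℕ → ℤ) (v : ℕ) : pot f g (2 * v + 2) = f v := by
  have h1 : (2 * v + 2) / 2 - 1 = v := by omega
  rw [pot, if_neg (by omega), if_pos (by omega), h1]

theorem pot_min (f g : ℕ → ℤ) (v : ℕ) : pot f g (2 * v + 3) = g v := by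
  have h1 : (2 * v + 3) / 2 - 1 = v := by omega
  rw [pot, if_neg (by omega), if_neg (by omega), h1]

/-- If the least fixed point is at most `s` at `v0`, then Max loses. -/
theorem qgame_lose (hA : (A.map Prod.fst).Nodup) (hV : V.Nodup)
    (hAV : ∀ e ∈ A, e.1.1 ∈ V ∧ e.1.2 ∈ V) (hv0 : v0 ∈ V) (hl : IsLfp A a l) (h : l v0 ≤ s) :
    ¬ MaxWins (qgame K A V a v0 s) 0 := by
  have hT : ∀ v, T A (T A l) v = l v := hl.fix
  refine not_maxWins_of_potential (isGame_qgame hA hV hAV hv0) (fun _ => True)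
    (pot (fun v => 3 * (K * l v) + 2) (fun v => - (3 * (K * T A l v)) + 1)) (c := 3) (by norm_num)
    ?_ ?_ trivial ⟨rootArc K v0 s, mem_qgame.mpr (Or.inl rfl), rfl⟩
  · intro i _ hi hi'
    obtain ⟨c, hc, rfl⟩ := hi'
    have key : ∃ u ∈ V, c.1.1 = 2 * u + 3 := by
      rw [mem_qgame] at hc
      rw [mem_qgame_max] at hi
      push Not at hi
      rcases hc with rfl | ⟨e, he, rfl⟩ | ⟨e, he, rfl⟩ | ⟨v, hv, rfl⟩ | ⟨v, hv, rfl⟩
      · exact absurd rfl hi.1
      · exact absurd rfl (hi.2 _ (hAV e he).2)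
      · exact ⟨_, (hAV e he).2, rfl⟩
      · exact absurd rfl (hi.2 _ hv)
      · exact ⟨_, hv, rfl⟩
    obtain ⟨u, hu, hcu⟩ := key
    rw [hcu]
    rcases Nat.eq_zero_or_pos (T A l u) with h0 | h0
    · refine ⟨sMin u, mem_qgame.mpr (Or.inr (Or.inr (Or.inr (Or.inr ⟨u, hu, rfl⟩)))), rfl,
        trivial, ?_⟩
      have e1 : (sMin u).1.2 = 0 := rfl
      have e2 : (sMin u).2 = 0 := rfl
      rw [e1, e2, pot_zero, pot_min, h0]
      simp
    · obtain ⟨e, he, hev, h1⟩ := T_attained h0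
      refine ⟨qMin K e, mem_qgame.mpr (Or.inr (Or.inr (Or.inl ⟨e, he, rfl⟩))), ?_, trivial, ?_⟩
      · rw [qMin, hev]
      have e1 : (qMin K e).1.2 = 2 * e.1.1 + 2 := rfl
      have e2 : (qMin K e).2 = -((K * e.2 + 1 : ℕ) : ℤ) := rfl
      rw [e1, e2, pot_max, pot_min, ← h1]
      push_cast
      nlinarith
  · intro i _ hi c hc hci
    refine ⟨trivial, ?_⟩
    rw [mem_qgame] at hc
    rw [mem_qgame_max] at hi
    rcases hc with rfl | ⟨e, he, rfl⟩ | ⟨e, he, rfl⟩ | ⟨v, hv, rfl⟩ | ⟨v, hv, rfl⟩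
    · have e1 : (rootArc K v0 s).1.2 = 2 * v0 + 2 := rfl
      have e2 : (rootArc K v0 s).2 = -((K * s + 1 : ℕ) : ℤ) := rfl
      have e3 : i = 0 := hci.symm
      rw [e1, e2, e3, pot_max, pot_zero]
      have h1 : (K : ℤ) * l v0 ≤ K * s := by
        exact_mod_cast Nat.mul_le_mul_left K h
      push_cast
      linarith
    · have e1 : (qMax K e).1.2 = 2 * e.1.1 + 3 := rfl
      have e2 : (qMax K e).2 = ((K * e.2 : ℕ) : ℤ) := rfl
      have e3 : i = 2 * e.1.2 + 2 := hci.symm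
      rw [e1, e2, e3, pot_max, pot_min]
      have h1 := le_T_add (x := T A l) he
      rw [hT] at h1
      have h2 : (K : ℤ) * e.2 ≤ K * T A l e.1.1 + K * l e.1.2 := by
        rw [← mul_add]
        exact_mod_cast Nat.mul_le_mul_left K h1
      push_cast
      linarith
    · exfalso
      have e3 : i = 2 * e.1.2 + 3 := hci.symm
      rcases hi with h1 | ⟨v, hv, h1⟩ <;> omega
    · have e1 : (sMax K a v).1.2 = 0 := rfl
      have e2 : (sMax K a v).2 = ((K * a v : ℕ) : ℤ) := rfl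
      have e3 : i = 2 * v + 2 := hci.symm
      rw [e1, e2, e3, pot_max, pot_zero]
      have h2 : (K : ℤ) * a v ≤ K * l v := by
        exact_mod_cast Nat.mul_le_mul_left K (hl.ge v)
      push_cast
      linarith
    · exfalso
      have e3 : i = 2 * v + 3 := hci.symm
      rcases hi with h1 | ⟨v, hv, h1⟩ <;> omega

/-- If the least fixed point is larger than `s` at `v0`, then Max wins. -/
theorem qgame_win (hV : V.Nodup)
    (hAV : ∀ e ∈ A, e.1.1 ∈ V ∧ e.1.2 ∈ V) (hv0 : v0 ∈ V) (hK : V.length < K)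
    (ha : ∀ v, a v ≤ S A a v) (haV : ∀ v, v ∉ V → a v = 0) (hl : IsLfp A a l) (h : s < l v0) :
    MaxWins (qgame K A V a v0 s) 0 := by
  classical
  -- the stage at which a coordinate is reached
  obtain ⟨W, hW⟩ : ∃ W, ∀ e ∈ A, e.2 ≤ W :=
    ⟨lmax (A.map Prod.snd), fun e he => le_lmax (List.mem_map_of_mem he)⟩
  obtain ⟨m, -, hst⟩ := exists_stable (V := V.toFinset) (a := a)
    (fun e he => by rw [List.mem_toFinset]; exact (hAV e he).2) hW ha
    (fun v hv => haV v (by rwa [List.mem_toFinset] at hv))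
  have hlm : (S A)^[m] a = l := (isLfp_of_stable ha hst).unique hl
  have hex : ∀ v, ∃ k, (S A)^[k] a v = l v := fun v => ⟨m, by rw [hlm]⟩
  set st : ℕ → ℕ := fun v => Nat.find (hex v) with hstdef
  have st_spec : ∀ v, (S A)^[st v] a v = l v := fun v => Nat.find_spec (hex v)
  have st_min : ∀ v k, k < st v → (S A)^[k] a v ≠ l v := fun v k hk => Nat.find_min (hex v) hk
  have iter_le_l : ∀ k v, (S A)^[k] a v ≤ l v := fun k =>
    iter_le hl.ge (fun v => (hl.fix v).le) k
  -- rank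
  set rk : ℕ → ℕ := fun v => (V.toFinset.filter fun u => st u < st v).card with hrk
  have hcard : V.toFinset.card = V.length := List.toFinset_card_of_nodup hV
  have rk_le : ∀ v ∈ V, rk v + 1 ≤ V.length := by
    intro v hv
    rw [← hcard]
    apply Nat.succ_le_of_lt
    apply Finset.card_lt_card
    rw [Finset.filter_ssubset]
    exact ⟨v, List.mem_toFinset.mpr hv, lt_irrefl _⟩
  have rk_lt : ∀ t v, t ∈ V → st t < st v → rk t + 1 ≤ rk v := by
    intro t v ht htv
    apply Nat.succ_le_of_lt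
    apply Finset.card_lt_card
    rw [Finset.ssubset_iff_of_subset]
    · exact ⟨t, Finset.mem_filter.mpr ⟨List.mem_toFinset.mpr ht, htv⟩, fun h => by
        exact absurd (Finset.mem_filter.mp h).2 (lt_irrefl _)⟩
    · intro u hu
      rw [Finset.mem_filter] at hu ⊢
      exact ⟨hu.1, hu.2.trans htv⟩
  set G : ℕ → ℕ := fun u => lmax ((A.filter fun e => decide (e.1.2 = u)).map
    fun e => (K * e.2 + 1 + rk e.1.1) - K * l e.1.1) with hG
  have G_ge : ∀ e ∈ A, K * e.2 + 1 + rk e.1.1 ≤ G e.1.2 + K * l e.1.1 := by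
    intro e he
    have h1 : (K * e.2 + 1 + rk e.1.1) - K * l e.1.1 ≤ G e.1.2 := by
      apply le_lmax
      rw [List.mem_map]
      exact ⟨e, by rw [List.mem_filter]; exact ⟨he, by simp⟩, rfl⟩
    omega
  have G_le : ∀ u c, (∀ e ∈ A, e.1.2 = u → K * e.2 + 1 + rk e.1.1 ≤ c + K * l e.1.1) →
      G u ≤ c := by
    intro u c hc
    apply lmax_le
    intro x hx
    obtain ⟨e, he, rfl⟩ := List.mem_map.mp hx
    rw [List.mem_filter] at he
    have := hc e he.1 (by simpa using he.2)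
    omega
  refine maxWins_of_potential (fun _ => True)
    (pot (fun v => K * l v - rk v) (fun u => - (G u : ℤ))) ?_ ?_ trivial
  · intro i _ hi _
    rw [mem_qgame_max] at hi
    rcases hi with rfl | ⟨v, hv, rfl⟩
    · refine ⟨rootArc K v0 s, mem_qgame.mpr (Or.inl rfl), rfl, trivial, ?_⟩
      have e1 : (rootArc K v0 s).1.2 = 2 * v0 + 2 := rfl
      have e2 : (rootArc K v0 s).2 = -((K * s + 1 : ℕ) : ℤ) := rfl
      rw [e1, e2, pot_max, pot_zero]
      have h1 := rk_le v0 hv0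
      have h2 : K * (s + 1) ≤ K * l v0 := Nat.mul_le_mul_left K h
      have h3 : K * s + 1 + rk v0 ≤ K * l v0 := by
        rw [mul_add, mul_one] at h2
        omega
      have h4 : ((K * s + 1 + rk v0 : ℕ) : ℤ) ≤ ((K * l v0 : ℕ) : ℤ) := by exact_mod_cast h3
      push_cast at h4 ⊢
      linarith
    · by_cases h0 : l v = a v
      · refine ⟨sMax K a v, mem_qgame.mpr (Or.inr (Or.inr (Or.inr (Or.inl ⟨v, hv, rfl⟩)))), rfl,
          trivial, ?_⟩
        have e1 : (sMax K a v).1.2 = 0 := rfl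
        have e2 : (sMax K a v).2 = ((K * a v : ℕ) : ℤ) := rfl
        rw [e1, e2, pot_zero, pot_max, h0]
        push_cast
        have : (0 : ℤ) ≤ rk v := Int.natCast_nonneg _
        linarith
      · obtain ⟨k, hk⟩ : ∃ k, st v = k + 1 := by
          refine Nat.exists_eq_succ_of_ne_zero fun h1 => h0 ?_
          have := st_spec v
          rw [h1] at this
          exact this.symm
        have h1 : (S A)^[k] a v ≠ l v := st_min v k (by omega)
        set y := (S A)^[k] a with hy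
        have h2 : T A (T A y) v = l v := by
          have := st_spec v
          rw [hk, Function.iterate_succ_apply'] at this
          exact this
        have hpos : 0 < T A (T A y) v := by
          rw [h2]
          have : y v ≤ l v := iter_le_l k v
          omega
        obtain ⟨e, he, hev, h3⟩ := T_attained hpos
        rw [h2] at h3
        refine ⟨qMax K e, mem_qgame.mpr (Or.inr (Or.inl ⟨e, he, rfl⟩)), ?_, trivial, ?_⟩
        · rw [qMax, hev]
        have e1 : (qMax K e).1.2 = 2 * e.1.1 + 3 := rfl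
        have e2 : (qMax K e).2 = ((K * e.2 : ℕ) : ℤ) := rfl
        rw [e1, e2, pot_max, pot_min]
        have h4 : G e.1.1 ≤ (K * e.2 + rk v) - K * l v := by
          apply G_le
          intro f hf hfu
          have h5 := le_T_add (x := y) hf
          rw [hfu] at h5
          have h6 : y f.1.1 ≤ l f.1.1 := iter_le_l k _
          have h7 : K * l v ≤ K * e.2 := Nat.mul_le_mul_left K (by omega)
          have h8 := rk_le f.1.1 (hAV f hf).1
          by_cases h9 : y f.1.1 = l f.1.1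
          · have h10 : st f.1.1 ≤ k := Nat.find_le h9
            have h11 := rk_lt f.1.1 v (hAV f hf).1 (by omega)
            have h12 : f.2 + l v ≤ l f.1.1 + e.2 := by omega
            have h13 := Nat.mul_le_mul_left K h12
            rw [mul_add, mul_add] at h13
            omega
          · have h12 : f.2 + l v + 1 ≤ l f.1.1 + e.2 := by omega
            have h13 := Nat.mul_le_mul_left K h12
            rw [mul_add, mul_add, mul_add, mul_one] at h13
            omega
        have h7 : K * l v ≤ K * e.2 := Nat.mul_le_mul_left K (by omega)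
        have h14 : K * l v + G e.1.1 ≤ K * e.2 + rk v := by omega
        have h15 : ((K * l v + G e.1.1 : ℕ) : ℤ) ≤ ((K * e.2 + rk v : ℕ) : ℤ) := by
          exact_mod_cast h14
        push_cast at h15 ⊢
        linarith
  · intro i _ hi c hc hci
    refine ⟨trivial, ?_⟩
    rw [mem_qgame] at hc
    rw [mem_qgame_max] at hi
    push Not at hi
    rcases hc with rfl | ⟨e, he, rfl⟩ | ⟨e, he, rfl⟩ | ⟨v, hv, rfl⟩ | ⟨v, hv, rfl⟩
    · exact absurd hci.symm hi.1
    · exact absurd hci (hi.2 _ (hAV e he).2)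
    · have e1 : (qMin K e).1.2 = 2 * e.1.1 + 2 := rfl
      have e2 : (qMin K e).2 = -((K * e.2 + 1 : ℕ) : ℤ) := rfl
      have e3 : i = 2 * e.1.2 + 3 := hci.symm
      rw [e1, e2, e3, pot_max, pot_min]
      have h1 := G_ge e he
      have h2 : ((K * e.2 + 1 + rk e.1.1 : ℕ) : ℤ) ≤ ((G e.1.2 + K * l e.1.1 : ℕ) : ℤ) := by
        exact_mod_cast h1
      push_cast at h2 ⊢
      linarith
    · exact absurd hci (hi.2 _ hv)
    · have e1 : (sMin v).1.2 = 0 := rfl
      have e2 : (sMin v).2 = 0 := rfl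
      have e3 : i = 2 * v + 3 := hci.symm
      rw [e1, e2, e3, pot_zero, pot_min]
      have : (0 : ℤ) ≤ G v := Int.natCast_nonneg _
      linarith

/-- The query game decides whether the least fixed point is larger than `s` at `v0`. -/
theorem qgame_correct (hA : (A.map Prod.fst).Nodup) (hV : V.Nodup)
    (hAV : ∀ e ∈ A, e.1.1 ∈ V ∧ e.1.2 ∈ V) (hv0 : v0 ∈ V) (hK : V.length < K)
    (ha : ∀ v, a v ≤ S A a v) (haV : ∀ v, v ∉ V → a v = 0) (hl : IsLfp A a l) :
    MaxWins (qgame K A V a v0 s) 0 ↔ s < l v0 := by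
  constructor
  · intro h
    by_contra h'
    push Not at h'
    exact qgame_lose hA hV hAV hv0 hl h' h
  · exact qgame_win hV hAV hv0 hK ha haV hl

end

end Pool.Agent.Lib.MP_c29043_lc
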