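import Pool.Agent.Lib.MP_c29043_lc.Solve

/-!
# Least fixed points from an algorithm for mean payoff games
-/

set_option autoImplicit false

open N68a2faeb N487b59b3 Pool.Agent.Lib.PolyTime

namespace Pool.Agent.Lib.MP_c29043_lc

variable {α : Type} [N487b59b3 α]

/-- the query game, in a form that is computable in polynomial time -/
def query (A : List ((ℕ × ℕ) × ℕ)) (x : List (ℕ × ℕ)) (v s : ℕ) : List Arc × List ℕ :=
  (((0, 2 * v + 2), -((dbl (verts A) s + 1 : ℕ) : ℤ)) ::
    ((A.map fun e => ((2 * e.1.2 + 2, 2 * e.1.1 + 3), ((dbl (verts A) e.2 : ℕ) : ℤ))) ++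
      (A.map fun e => ((2 * e.1.2 + 3, 2 * e.1.1 + 2), -((dbl (verts A) e.2 + 1 : ℕ) : ℤ))) ++
      ((verts A).map fun v => ((2 * v + 2, 0), ((dbl (verts A) (vec x v) : ℕ) : ℤ))) ++
      (verts A).map fun v => ((2 * v + 3, 0), ((0 : ℕ) : ℤ))),
    0 :: (verts A).map fun v => 2 * v + 2)

theorem query_eq (A : List ((ℕ × ℕ) × ℕ)) (x : List (ℕ × ℕ)) (v s : ℕ) :
    query A x v s = qgame (2 ^ (verts A).length) A (verts A) (vec x) v s := by
  unfold query qgame
  simp only [dbl_eq]
  rfl

theorem pt_query {A : α → List ((ℕ × ℕ) × ℕ)} {x : α → List (ℕ × ℕ)} {v s : α → ℕ}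
    (hA : IsPolyTime A) (hx : IsPolyTime x) (hv : IsPolyTime v) (hs : IsPolyTime s) :
    IsPolyTime (fun a => query (A a) (x a) (v a) (s a)) := by
  unfold query
  fun_prop

/-- least fixed points by binary search in each coordinate -/
def gameL (f : (List Arc × List ℕ) × ℕ → Bool) : Sub' := fun _ p =>
  tab (verts p.1) fun v =>
    (pws (bitsOf (wts p.1))).2.foldl
      (fun c q => if f (query p.1 p.2 v (c + q - 1), 0) then c + q else c) 0

theorem gameL_correct {f : (List Arc × List ℕ) × ℕ → Bool} (hf : Decides f) (c : List Bool) :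
    LfpCorrect (fun _ => True) (gameL f c) := by
  intro A x _ hA h1 h2 h3
  obtain ⟨m, -, hst⟩ := exists_stable (V := (verts A).toFinset) (a := vec x)
    (fun e he => by rw [List.mem_toFinset]; exact (mem_verts he).2) le_wts h1
    (fun v hv => h2 v (by rwa [List.mem_toFinset] at hv))
  have hl := isLfp_of_stable h1 hst
  set l := (S A)^[m] (vec x) with hldef
  have e : vec (gameL f c (A, x)) = l := by
    have hzero : ∀ v, v ∉ verts A → l v = 0 := by
      intro v hv
      rw [← hl.fix v]
      exact T_zero_of_not_mem hv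
    have key : ∀ v ∈ verts A, (pws (bitsOf (wts A))).2.foldl
        (fun c q => if f (query A x v (c + q - 1), 0) then c + q else c) 0 = l v := by
      intro v hv
      rw [pws_eq]
      refine greedy_eq (Nat.zero_le _) ?_ (fun c q => f (query A x v (c + q - 1), 0)) ?_
      · rw [zero_add, ← hl.fix v]
        refine lt_of_le_of_lt (T_le_bound le_wts v) ?_
        exact lt_two_pow_sz (wts A)
      · intro c p hp
        have h4 : IsGame (query A x v (c + p - 1)) := by
          rw [query_eq]
          exact isGame_qgame hA.nodup (verts_nodup A) (fun e he => mem_verts he) hv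
        have h5 : ∃ a ∈ (query A x v (c + p - 1)).1, a.1.1 = 0 :=
          ⟨_, List.mem_cons_self, rfl⟩
        rw [hf _ _ h4 h5, query_eq, qgame_correct hA.nodup (verts_nodup A)
          (fun e he => mem_verts he) hv (Nat.lt_two_pow_self) h1 h2 hl]
        omega
    funext v
    by_cases hv : v ∈ verts A
    · exact (vec_tab hv).trans (key v hv)
    · rw [hzero v hv]
      exact vec_tab_zero hv
  rw [e]
  exact hl

theorem pt_gameL {f : (List Arc × List ℕ) × ℕ → Bool} (hf : IsPolyTime f) :
    IsPolyTime (fun p : List Bool × (List ((ℕ × ℕ) × ℕ) × List (ℕ × ℕ)) => gameL f p.1 p.2) := by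
  unfold gameL
  refine pt_tab (by fun_prop) ?_
  have hB : IsPolyTime (fun p : (List Bool × (List ((ℕ × ℕ) × ℕ) × List (ℕ × ℕ))) × ℕ =>
      (pws (bitsOf (wts p.1.2.1))).1) := by fun_prop
  obtain ⟨q, hq⟩ := exists_size hB
  refine pt_foldl (α := (List Bool × (List ((ℕ × ℕ) × ℕ) × List (ℕ × ℕ))) × ℕ)
    (g := fun p c r => if f (query p.1.2.1 p.1.2.2 p.2 (c + r - 1), 0) then c + r else c)
    ?_ (by fun_prop) (by fun_prop) q ?_
  · have h1 : IsPolyTime (fun p : ((List Bool × (List ((ℕ × ℕ) × ℕ) × List (ℕ × ℕ))) × ℕ) ×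
        (ℕ × ℕ) => (query p.1.1.2.1 p.1.1.2.2 p.1.2 (p.2.1 + p.2.2 - 1), 0)) :=
      pt_pair (pt_query (by fun_prop) (by fun_prop) (by fun_prop) (by fun_prop)) (by fun_prop)
    have h2 := pt_comp hf h1
    have h3 : IsPolyTime (fun p : ((List Bool × (List ((ℕ × ℕ) × ℕ) × List (ℕ × ℕ))) × ℕ) ×
        (ℕ × ℕ) => cond (f (query p.1.1.2.1 p.1.1.2.2 p.1.2 (p.2.1 + p.2.2 - 1), 0))
          (p.2.1 + p.2.2) p.2.1) := pt_cond h2 (by fun_prop) (by fun_prop)
    refine pt_congr h3 (fun p => ?_)
    cases f (query p.1.1.2.1 p.1.1.2.2 p.1.2 (p.2.1 + p.2.2 - 1), 0) <;> rfl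
  · intro p k
    refine le_trans ?_ (hq p)
    apply sz_mono
    refine (greedy_le _ 0 (fun c r => f (query p.1.2.1 p.1.2.2 p.2 (c + r - 1), 0))).trans ?_
    rw [pws_eq]
    have h1 := sum_pwL (bitsOf (wts p.1.2.1)).length
    have h2 : ((pwL (bitsOf (wts p.1.2.1)).length).take k).sum ≤
        (pwL (bitsOf (wts p.1.2.1)).length).sum :=
      List.Sublist.sum_le_sum (List.take_sublist _ _) (fun _ _ => Nat.zero_le _)
    simp only
    omega

/-- If mean payoff games are in `P`, then covers can be computed in polynomial time. -/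
theorem covers_of_games (h : GamesInP) : CoversInP fun _ => True := by
  obtain ⟨f, hf, hd⟩ := h
  refine ⟨fun A => solve (gameL f []) (merge A), ?_, fun A hA _ => ?_⟩
  · exact pt_comp (g := fun p : List Bool × List ((ℕ × ℕ) × ℕ) => solve (gameL f p.1) p.2)
      (f := fun A => ([], merge A)) (pt_solve (pt_gameL hf)) (pt_pair (pt_const _) (by fun_prop))
  · exact merge_correct (solve_correct (gameL_correct hd []) trivial (isWDigraph_merge hA))

end Pool.Agent.Lib.MP_c29043_lc
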