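import Pool.Agent.Lib.MP_c29043_lc.Alg

/-!
# The algorithm, from a subroutine for least fixed points
-/

set_option autoImplicit false

open N68a2faeb N487b59b3 Pool.Agent.Lib.PolyTime

namespace Pool.Agent.Lib.MP_c29043_lc

variable {α : Type} [N487b59b3 α]

/-- the list of nodes -/
def verts (A : List ((ℕ × ℕ) × ℕ)) : List ℕ :=
  nub ((A.map fun e => e.1.1) ++ A.map fun e => e.1.2)

/-- the largest weight -/
def wts (A : List ((ℕ × ℕ) × ℕ)) : ℕ := lmax (A.map fun e => e.2)

@[fun_prop]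
theorem pt_verts {A : α → List ((ℕ × ℕ) × ℕ)} (hA : IsPolyTime A) :
    IsPolyTime (fun a => verts (A a)) := by
  unfold verts
  fun_prop

@[fun_prop]
theorem pt_wts {A : α → List ((ℕ × ℕ) × ℕ)} (hA : IsPolyTime A) :
    IsPolyTime (fun a => wts (A a)) := by
  unfold wts
  fun_prop

theorem mem_verts {A : List ((ℕ × ℕ) × ℕ)} {e : (ℕ × ℕ) × ℕ} (he : e ∈ A) :
    e.1.1 ∈ verts A ∧ e.1.2 ∈ verts A := by
  unfold verts
  rw [mem_nub, mem_nub, List.mem_append, List.mem_append]
  exact ⟨Or.inl (List.mem_map_of_mem he), Or.inr (List.mem_map_of_mem he)⟩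

theorem verts_nodup (A : List ((ℕ × ℕ) × ℕ)) : (verts A).Nodup := nub_nodup _

theorem le_wts {A : List ((ℕ × ℕ) × ℕ)} : ∀ e ∈ A, e.2 ≤ wts A := fun _ he =>
  le_lmax (List.mem_map_of_mem he)

theorem T_zero_of_not_mem {A : List ((ℕ × ℕ) × ℕ)} {x : ℕ → ℕ} {v : ℕ} (hv : v ∉ verts A) :
    T A x v = 0 := by
  apply Nat.le_zero.mp
  apply T_le
  intro e he hev
  exact absurd (hev ▸ (mem_verts he).2) hv

/-! ### Parallel arcs -/

/-- among parallel arcs keep only the largest weight -/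
def merge (A : List ((ℕ × ℕ) × ℕ)) : List ((ℕ × ℕ) × ℕ) :=
  (nub (A.map fun e => e.1)).map fun k =>
    (k, lmax ((A.filter fun e => decide (e.1 = k)).map fun e => e.2))

@[fun_prop]
theorem pt_merge {A : α → List ((ℕ × ℕ) × ℕ)} (hA : IsPolyTime A) :
    IsPolyTime (fun a => merge (A a)) := by
  unfold merge
  fun_prop

theorem isWDigraph_merge {A : List ((ℕ × ℕ) × ℕ)} (hA : ∀ e ∈ A, Even e.2) :
    IsWDigraph (merge A) := by
  refine ⟨?_, fun f hf => ?_⟩
  · unfold merge
    rw [List.map_map]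
    have e : (Prod.fst ∘ fun k => (k, lmax ((A.filter fun e => decide (e.1 = k)).map
      fun e => e.2))) = (id : ℕ × ℕ → ℕ × ℕ) := rfl
    rw [e, List.map_id]
    exact nub_nodup _
  · unfold merge at hf
    obtain ⟨k, _, rfl⟩ := List.mem_map.mp hf
    rcases lmax_mem ((A.filter fun e => decide (e.1 = k)).map fun e => e.2) with h | h
    · simp only [h]
      exact ⟨0, rfl⟩
    · obtain ⟨e, he, h2⟩ := List.mem_map.mp h
      rw [List.mem_filter] at he
      have := hA e he.1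
      rw [h2] at this
      exact this

theorem merge_correct {A : List ((ℕ × ℕ) × ℕ)} {x : ℕ → ℕ} (hx : IsCover (merge A) x) :
    IsCover A x := by
  refine ⟨fun e he => ?_, fun v hv => ?_⟩
  · have h1 := hx.cover (e.1, lmax ((A.filter fun f => decide (f.1 = e.1)).map fun f => f.2))
      (List.mem_map.mpr ⟨e.1, mem_nub.mpr (List.mem_map_of_mem he), rfl⟩)
    have h2 : e.2 ≤ lmax ((A.filter fun f => decide (f.1 = e.1)).map fun f => f.2) :=
      le_lmax (List.mem_map.mpr ⟨e, List.mem_filter.mpr ⟨he, by simp⟩, rfl⟩)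
    exact h2.trans h1
  · obtain ⟨f, hf, hfv, h1⟩ := hx.tight v hv
    obtain ⟨k, _, rfl⟩ := List.mem_map.mp hf
    rcases lmax_mem ((A.filter fun e => decide (e.1 = k)).map fun e => e.2) with h | h
    · simp only [h] at h1
      omega
    · obtain ⟨e, he, h2⟩ := List.mem_map.mp h
      rw [List.mem_filter] at he
      have h3 : e.1 = k := by simpa using he.2
      refine ⟨e, he.1, by rw [h3]; exact hfv, ?_⟩
      rw [h2, h3]
      exact h1

/-! ### The algorithm -/

/-- one halving step -/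
def halve (L : List ((ℕ × ℕ) × ℕ) × List (ℕ × ℕ) → List (ℕ × ℕ)) (A : List ((ℕ × ℕ) × ℕ))
    (x : List (ℕ × ℕ)) (h : ℕ) : List (ℕ × ℕ) :=
  tab (verts A) fun v => min (wts A) (max (vec (L (A, x)) v) (T A (vec (L (A, x))) v - h))

/-- the lower corner of an invariant box of side `1` -/
def corner (L : List ((ℕ × ℕ) × ℕ) × List (ℕ × ℕ) → List (ℕ × ℕ)) (A : List ((ℕ × ℕ) × ℕ)) :
    List (ℕ × ℕ) :=
  (pws (bitsOf (wts A))).2.foldl (halve L A) (tab (verts A) fun _ => 0)

/-- the algorithm -/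
def solve (L : List ((ℕ × ℕ) × ℕ) × List (ℕ × ℕ) → List (ℕ × ℕ)) (A : List ((ℕ × ℕ) × ℕ)) :
    List (ℕ × ℕ) :=
  tab (verts A) fun v => if vec (L (A, corner L A)) v % 2 = 1
    then T A (vec (L (A, corner L A))) v else vec (L (A, corner L A)) v

/-- `L` computes least fixed points of the digraphs that satisfy `P` -/
def LfpCorrect (P : List ((ℕ × ℕ) × ℕ) → Prop)
    (L : List ((ℕ × ℕ) × ℕ) × List (ℕ × ℕ) → List (ℕ × ℕ)) : Prop :=
  ∀ A x, P A → IsWDigraph A → (∀ v, vec x v ≤ S A (vec x) v) →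
    (∀ v, v ∉ verts A → vec x v = 0) → (∀ v, vec x v ≤ wts A) →
    IsLfp A (vec x) (vec (L (A, x)))

theorem corner_correct {P : List ((ℕ × ℕ) × ℕ) → Prop}
    {L : List ((ℕ × ℕ) × ℕ) × List (ℕ × ℕ) → List (ℕ × ℕ)} (hL : LfpCorrect P L)
    {A : List ((ℕ × ℕ) × ℕ)} (hP : P A) (hA : IsWDigraph A) :
    (∀ v, v ∉ verts A → vec (corner L A) v = 0) ∧ ∃ b, Box A (vec (corner L A)) b 1 := by
  have key : ∀ (n : ℕ) (x : List (ℕ × ℕ)), (∀ v, v ∉ verts A → vec x v = 0) →
      (∃ b, Box A (vec x) b (2 ^ n)) →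
      (∀ v, v ∉ verts A → vec ((pwL n).foldl (halve L A) x) v = 0) ∧
        ∃ b, Box A (vec ((pwL n).foldl (halve L A) x)) b 1 := by
    intro n
    induction n with
    | zero => intro x h1 h2; exact ⟨h1, h2⟩
    | succ n ih =>
      intro x h1 h2
      rw [pwL, List.foldl_cons]
      obtain ⟨b, hb⟩ := h2
      have hxW : ∀ v, vec x v ≤ wts A := fun v =>
        (hb.low v).trans (T_le_bound le_wts v)
      have hl := hL A x hP hA hb.le_S h1 hxW
      rw [pow_succ, mul_comm] at hb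
      have hb' := hb.halve hl
      have e : vec (halve L A x (2 ^ n)) = fun v => max (vec (L (A, x)) v)
          (T A (vec (L (A, x))) v - 2 ^ n) := by
        have e1 : ∀ v, min (wts A) (max (vec (L (A, x)) v) (T A (vec (L (A, x))) v - 2 ^ n)) =
            max (vec (L (A, x)) v) (T A (vec (L (A, x))) v - 2 ^ n) := by
          intro v
          rw [min_eq_right]
          apply max_le
          · rw [← hl.fix v]; exact T_le_bound le_wts v
          · exact (Nat.sub_le _ _).trans (T_le_bound le_wts v)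
        unfold halve
        simp only [e1]
        apply vec_tab_eq
        intro v hv
        rw [T_zero_of_not_mem hv]
        have h3 : vec (L (A, x)) v = 0 := by
          rw [← hl.fix v]; exact T_zero_of_not_mem hv
        rw [h3]
        simp
      refine ih _ ?_ ⟨_, by rw [e]; exact hb'⟩
      intro v hv
      exact vec_tab_zero hv
  have h0 : vec (tab (verts A) fun _ => 0) = fun _ => 0 := vec_tab_eq (fun v _ => rfl)
  unfold corner
  rw [pws_eq]
  apply key
  · intro v _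
    rw [h0]
  · have h3 : wts A ≤ 2 ^ (bitsOf (wts A)).length := (lt_two_pow_sz (wts A)).le
    exact ⟨_, by rw [h0]; exact box_init le_wts h3⟩

theorem solve_correct {P : List ((ℕ × ℕ) × ℕ) → Prop}
    {L : List ((ℕ × ℕ) × ℕ) × List (ℕ × ℕ) → List (ℕ × ℕ)} (hL : LfpCorrect P L)
    {A : List ((ℕ × ℕ) × ℕ)} (hP : P A) (hA : IsWDigraph A) : IsCover A (vec (solve L A)) := by
  obtain ⟨h1, b, hb⟩ := corner_correct hL hP hA
  have hl := hL A (corner L A) hP hA hb.le_S h1 (fun v => (hb.low v).trans (T_le_bound le_wts v))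
  obtain ⟨h2, h3, h4⟩ := hb.lfp_props hl
  have h5 := cover_of_pair hA.even h2 h3 h4
  have e : vec (solve L A) = fun v => if vec (L (A, corner L A)) v % 2 = 1
      then T A (vec (L (A, corner L A))) v else vec (L (A, corner L A)) v := by
    apply vec_tab_eq
    intro v hv
    have h6 : vec (L (A, corner L A)) v = 0 := by
      rw [← hl.fix v]; exact T_zero_of_not_mem hv
    rw [h6]
    rfl
  rw [e]
  exact h5

/-! ### Polynomial time -/

/-- the type of subroutines with a clock -/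
abbrev Sub' := List Bool → List ((ℕ × ℕ) × ℕ) × List (ℕ × ℕ) → List (ℕ × ℕ)

theorem pt_halve {L : Sub'}
    (hL : IsPolyTime (fun p : List Bool × (List ((ℕ × ℕ) × ℕ) × List (ℕ × ℕ)) => L p.1 p.2))
    {c : α → List Bool} {A : α → List ((ℕ × ℕ) × ℕ)} {x : α → List (ℕ × ℕ)} {h : α → ℕ}
    (hc : IsPolyTime c) (hA : IsPolyTime A)
    (hx : IsPolyTime x) (hh : IsPolyTime h) :
    IsPolyTime (fun a => halve (L (c a)) (A a) (x a) (h a)) := by
  have h1 : IsPolyTime (fun a => L (c a) (A a, x a)) :=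
    pt_comp (g := fun p : List Bool × (List ((ℕ × ℕ) × ℕ) × List (ℕ × ℕ)) => L p.1 p.2)
      (f := fun a => (c a, (A a, x a))) hL (by fun_prop)
  have h2 : IsPolyTime (fun p : α × ℕ => L (c p.1) (A p.1, x p.1)) :=
    pt_comp (g := fun a => L (c a) (A a, x a)) h1 pt_fst'
  unfold halve
  fun_prop

theorem pt_corner {L : Sub'}
    (hL : IsPolyTime (fun p : List Bool × (List ((ℕ × ℕ) × ℕ) × List (ℕ × ℕ)) => L p.1 p.2)) :
    IsPolyTime (fun p : List Bool × List ((ℕ × ℕ) × ℕ) => corner (L p.1) p.2) := by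
  have hB : IsPolyTime (fun p : List Bool × List ((ℕ × ℕ) × ℕ) =>
      tab (verts p.2) fun _ => wts p.2) := by
    fun_prop
  obtain ⟨q, hq⟩ := exists_size hB
  refine pt_foldl (α := List Bool × List ((ℕ × ℕ) × ℕ))
    (g := fun p x h => halve (L p.1) p.2 x h) ?_ (by fun_prop) (by fun_prop) q ?_
  · exact pt_halve hL (by fun_prop) (by fun_prop) (by fun_prop) (by fun_prop)
  · intro p k
    refine le_trans ?_ (hq p)
    rcases List.eq_nil_or_concat ((pws (bitsOf (wts p.2))).2.take k) with h | ⟨l', b, h⟩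
    · rw [h]
      exact sz_tab_mono _ (fun v => Nat.zero_le _)
    · rw [h, List.concat_eq_append, List.foldl_append, List.foldl_cons, List.foldl_nil]
      exact sz_tab_mono _ (fun v => min_le_left _ _)

theorem pt_solve {L : Sub'}
    (hL : IsPolyTime (fun p : List Bool × (List ((ℕ × ℕ) × ℕ) × List (ℕ × ℕ)) => L p.1 p.2)) :
    IsPolyTime (fun p : List Bool × List ((ℕ × ℕ) × ℕ) => solve (L p.1) p.2) := by
  have hc := pt_corner hL
  have h1 : IsPolyTime (fun p : List Bool × List ((ℕ × ℕ) × ℕ) =>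
      L p.1 (p.2, corner (L p.1) p.2)) :=
    pt_comp (g := fun p : List Bool × (List ((ℕ × ℕ) × ℕ) × List (ℕ × ℕ)) => L p.1 p.2)
      (f := fun p : List Bool × List ((ℕ × ℕ) × ℕ) => (p.1, (p.2, corner (L p.1) p.2)))
      hL (by fun_prop)
  have h2 : IsPolyTime (fun p : (List Bool × List ((ℕ × ℕ) × ℕ)) × ℕ =>
      L p.1.1 (p.1.2, corner (L p.1.1) p.1.2)) :=
    pt_comp (g := fun p : List Bool × List ((ℕ × ℕ) × ℕ) => L p.1 (p.2, corner (L p.1) p.2))
      h1 pt_fst'
  unfold solve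
  refine pt_tab (by fun_prop) ?_
  have h3 : IsPolyTime (fun p : (List Bool × List ((ℕ × ℕ) × ℕ)) × ℕ =>
      decide (vec (L p.1.1 (p.1.2, corner (L p.1.1) p.1.2)) p.2 % 2 = 1)) :=
    pt_odd (pt_vec h2 (by fun_prop))
  refine pt_ite h3 ?_ ?_
  · exact pt_T (by fun_prop) h2 (by fun_prop)
  · exact pt_vec h2 (by fun_prop)

end Pool.Agent.Lib.MP_c29043_lc
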