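import Pool.Agent.Lib.MP_c29043_lc.Solve

/-!
# Weights in unary
-/

set_option autoImplicit false

open N68a2faeb N487b59b3 Pool.Agent.Lib.PolyTime

namespace Pool.Agent.Lib.MP_c29043_lc

variable {α : Type} [N487b59b3 α]

/-- one step of the iteration -/
def itStep (A : List ((ℕ × ℕ) × ℕ)) (x : List (ℕ × ℕ)) : List (ℕ × ℕ) :=
  tab (verts A) fun v => T A (vec (tab (verts A) fun u => T A (vec x) u)) v

/-- least fixed points by iteration, the clock gives the number of steps -/
def itL : Sub' := fun c p => c.foldl (fun x _ => itStep p.1 x) p.2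

theorem vec_itStep (A : List ((ℕ × ℕ) × ℕ)) (x : List (ℕ × ℕ)) :
    vec (itStep A x) = S A (vec x) := by
  have h1 : vec (tab (verts A) fun u => T A (vec x) u) = T A (vec x) :=
    vec_tab_eq (fun v hv => T_zero_of_not_mem hv)
  unfold itStep
  rw [h1]
  exact vec_tab_eq (fun v hv => T_zero_of_not_mem hv)

theorem vec_itL (c : List Bool) (A : List ((ℕ × ℕ) × ℕ)) (x : List (ℕ × ℕ)) :
    vec (itL c (A, x)) = (S A)^[c.length] (vec x) := by
  induction c generalizing x with
  | nil => rfl
  | cons b c ih =>
    have e : itL (b :: c) (A, x) = itL c (A, itStep A x) := rfl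
    rw [e, ih, vec_itStep, List.length_cons, Function.iterate_succ_apply]

theorem itL_correct (c : List Bool) :
    LfpCorrect (fun A => (verts A).length * wts A ≤ c.length) (itL c) := by
  intro A x hP hA h1 h2 h3
  rw [vec_itL]
  refine isLfp_iterate (V := (verts A).toFinset) (W := wts A)
    (fun e he => by rw [List.mem_toFinset]; exact (mem_verts he).2) le_wts h1
    (fun v hv => h2 v (by rwa [List.mem_toFinset] at hv)) ?_
  rw [List.toFinset_card_of_nodup (verts_nodup A)]
  exact hP

@[fun_prop]
theorem pt_itStep {A : α → List ((ℕ × ℕ) × ℕ)} {x : α → List (ℕ × ℕ)} (hA : IsPolyTime A)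
    (hx : IsPolyTime x) : IsPolyTime (fun a => itStep (A a) (x a)) := by
  unfold itStep
  fun_prop

theorem pt_itL : IsPolyTime (fun p : List Bool × (List ((ℕ × ℕ) × ℕ) × List (ℕ × ℕ)) =>
    itL p.1 p.2) := by
  have hB : IsPolyTime (fun p : List Bool × (List ((ℕ × ℕ) × ℕ) × List (ℕ × ℕ)) =>
      (p.2.2, tab (verts p.2.1) fun _ => wts p.2.1)) := by fun_prop
  obtain ⟨q, hq⟩ := exists_size hB
  refine pt_foldl (α := List Bool × (List ((ℕ × ℕ) × ℕ) × List (ℕ × ℕ)))
    (g := fun p x _ => itStep p.2.1 x) (by fun_prop) (by fun_prop) (by fun_prop) q ?_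
  intro p k
  have h1 := hq p
  rw [sz_pair] at h1
  rcases List.eq_nil_or_concat (p.1.take k) with h | ⟨l', b, h⟩
  · rw [h, List.foldl_nil]
    omega
  · rw [h, List.concat_eq_append, List.foldl_append, List.foldl_cons, List.foldl_nil]
    have h2 : ∀ x, sz (itStep p.2.1 x) ≤ sz (tab (verts p.2.1) fun _ => wts p.2.1) := by
      intro x
      exact sz_tab_mono _ (fun v => T_le_bound le_wts v)
    have h3 := h2 (l'.foldl (fun x _ => itStep p.2.1 x) p.2.2)
    omega

/-- the digraph with the weights in binary -/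
def unW (A : List ((ℕ × ℕ) × List Bool)) : List ((ℕ × ℕ) × ℕ) :=
  A.map fun e => (e.1, e.2.length)

/-- the clock -/
def clock (A : List ((ℕ × ℕ) × List Bool)) : List Bool :=
  (verts (merge (unW A))).flatMap fun _ => A.flatMap fun e => e.2

theorem wts_le (A : List ((ℕ × ℕ) × List Bool)) :
    wts (merge (unW A)) ≤ (A.flatMap fun e => e.2).length := by
  have h1 : ∀ e ∈ unW A, e.2 ≤ (A.flatMap fun e => e.2).length := by
    intro f hf
    unfold unW at hf
    obtain ⟨e, he, rfl⟩ := List.mem_map.mp hf
    rw [List.length_flatMap]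
    exact List.single_le_sum (by simp) _ (List.mem_map.mpr ⟨e, he, rfl⟩)
  apply lmax_le
  intro m hm
  obtain ⟨f, hf, rfl⟩ := List.mem_map.mp hm
  obtain ⟨k, _, rfl⟩ := List.mem_map.mp hf
  apply lmax_le
  intro m hm
  obtain ⟨e, he, rfl⟩ := List.mem_map.mp hm
  exact h1 e (List.mem_filter.mp he).1

theorem length_clock (A : List ((ℕ × ℕ) × List Bool)) :
    (verts (merge (unW A))).length * wts (merge (unW A)) ≤ (clock A).length := by
  unfold clock
  rw [List.length_flatMap, List.map_const', List.sum_replicate, smul_eq_mul]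
  exact Nat.mul_le_mul_left _ (wts_le A)

/-- Polynomial time for weights in unary. -/
theorem unary_main : ∃ f : List ((ℕ × ℕ) × List Bool) → List (ℕ × ℕ), IsPolyTime f ∧
    ∀ A, (∀ a ∈ A, Even a.2.length) →
      IsCover (A.map fun a => (a.1, a.2.length)) (vec (f A)) := by
  refine ⟨fun A => solve (itL (clock A)) (merge (unW A)), ?_, fun A hA => ?_⟩
  · have h1 : IsPolyTime (fun A => merge (unW A)) := by
      unfold unW
      fun_prop
    have h2 : IsPolyTime (fun A => clock A) := by
      unfold clock
      fun_prop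
    exact pt_comp (g := fun p : List Bool × List ((ℕ × ℕ) × ℕ) => solve (itL p.1) p.2)
      (f := fun A => (clock A, merge (unW A))) (pt_solve pt_itL) (pt_pair h2 h1)
  · have h3 : ∀ e ∈ unW A, Even e.2 := by
      intro f hf
      unfold unW at hf
      obtain ⟨e, he, rfl⟩ := List.mem_map.mp hf
      exact hA e he
    exact merge_correct (solve_correct (itL_correct (clock A)) (length_clock A)
      (isWDigraph_merge h3))

end Pool.Agent.Lib.MP_c29043_lc
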